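import Pool.Agent.LCB.RelHier

/-!
Division, remainders and sums in polynomial time (from Lib/PCP/FinPT).
-/

set_option autoImplicit false

namespace Pool.Agent.FIM

open Pool.Agent.Lib.helper60

section

variable {α : Type} [DEnc α]

/-- one step of the division by iterated subtraction; the state is `(r, g, q)` -/
def finPTdiv (s : ℕ × ℕ × ℕ) : ℕ × ℕ × ℕ :=
  bif (decide (0 < s.2.1) && decide (s.2.1 ≤ s.1)) then (s.1 - s.2.1, s.2.1, s.2.2 + 1) else s

lemma finPT_div : PT finPTdiv :=
  PT.cond (PT.band (PT.nlt (PT.const 0) (PT.fst.comp PT.snd))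
    (PT.nle (PT.fst.comp PT.snd) PT.fst))
    (PT.pair (PT.nsub PT.fst (PT.fst.comp PT.snd))
      (PT.pair (PT.fst.comp PT.snd) (PT.nsucc (PT.snd.comp PT.snd)))) PT.id

lemma finPTdiv_pos {r g q : ℕ} (h : 0 < g) (h' : g ≤ r) :
    finPTdiv (r, g, q) = (r - g, g, q + 1) := by
  simp [finPTdiv, h, h']

lemma finPTdiv_neg {r g q : ℕ} (h : g = 0 ∨ r < g) : finPTdiv (r, g, q) = (r, g, q) := by
  rcases h with h | h
  · simp [finPTdiv, h]
  · have h' : ¬ g ≤ r := by omega
    simp [finPTdiv, h']

lemma finPTdiv_iter_neg {r g q : ℕ} (h : g = 0 ∨ r < g) (i : ℕ) :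
    finPTdiv^[i] (r, g, q) = (r, g, q) := by
  induction i with
  | zero => rfl
  | succ i ih => rw [Function.iterate_succ_apply, finPTdiv_neg h, ih]

lemma finPTdiv_iter (i r g q : ℕ) (h : r ≤ i) :
    finPTdiv^[i] (r, g, q) = (r % g, g, q + r / g) := by
  induction i generalizing r q with
  | zero =>
    have : r = 0 := by omega
    subst this
    simp
  | succ i ih =>
    rcases Nat.eq_zero_or_pos g with hg | hg
    · rw [finPTdiv_iter_neg (Or.inl hg)]
      subst hg
      simp
    · rcases lt_or_ge r g with h1 | h1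
      · rw [finPTdiv_iter_neg (Or.inr h1), Nat.mod_eq_of_lt h1, Nat.div_eq_of_lt h1]
        rfl
      · rw [Function.iterate_succ_apply, finPTdiv_pos hg h1, ih _ _ (by omega)]
        rw [← Nat.mod_eq_sub_mod h1, Nat.div_eq_sub_div hg h1]
        congr 2
        omega

lemma finPTdiv_size (i : ℕ) : ∀ r g q, ∃ r' q', finPTdiv^[i] (r, g, q) = (r', g, q') ∧ r' ≤ r ∧
    q' ≤ q + i := by
  induction i with
  | zero => intro r g q; exact ⟨r, q, rfl, le_rfl, le_rfl⟩
  | succ i ih =>
    intro r g q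
    rw [Function.iterate_succ_apply]
    by_cases h : 0 < g ∧ g ≤ r
    · rw [finPTdiv_pos h.1 h.2]
      obtain ⟨r', q', h1, h2, h3⟩ := ih (r - g) g (q + 1)
      exact ⟨r', q', h1, by omega, by omega⟩
    · rw [finPTdiv_neg (by omega)]
      obtain ⟨r', q', h1, h2, h3⟩ := ih r g q
      exact ⟨r', q', h1, by omega, by omega⟩

lemma finPT_divmod {f g : α → ℕ} (hf : PT f) (hg : PT g) :
    PT (fun x => (f x % g x, g x, f x / g x)) := by
  have h := PT.iterateNat (count := f) (init := fun x => (f x, g x, 0)) hf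
    (PT.pair hf (PT.pair hg (PT.const 0))) finPT_div
    ⟨fun x => tsize (f x) + tsize (g x) + tsize (f x) + 2, ((hf.size.add hg.size).add
      hf.size).add (PB.const 2), by
      intro x i hi
      obtain ⟨r', q', h1, h2, h3⟩ := finPTdiv_size i (f x) (g x) 0
      rw [h1]
      simp only [tsize_pair, tsize_nat]
      omega⟩
  refine h.congr fun x => ?_
  rw [finPTdiv_iter _ _ _ _ le_rfl, Nat.zero_add]

theorem PTx_ndiv {f g : α → ℕ} (hf : PT f) (hg : PT g) : PT (fun x => f x / g x) :=
  (PT.snd.comp PT.snd).comp (finPT_divmod hf hg)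

theorem PTx_nmod {f g : α → ℕ} (hf : PT f) (hg : PT g) : PT (fun x => f x % g x) :=
  PT.fst.comp (finPT_divmod hf hg)

lemma finPT_sum_le (l : List ℕ) : 2 * l.sum + 1 ≤ tsize l := by
  induction l with
  | nil => simp
  | cons n l ih =>
    simp only [List.sum_cons, tsize_cons, tsize_nat]
    omega

theorem PTx_nsum {f : α → List ℕ} (hf : PT f) : PT (fun x => (f x).sum) := by
  have e : ∀ (u : List ℕ) (v : ℕ), u.foldl (fun s b => s + b) v = v + u.sum := by
    intro u
    induction u with
    | nil => intro v; simp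
    | cons b u ih => intro v; simp [ih, Nat.add_assoc]
  have h := PT.foldl (init := fun _ => 0) (g := fun y : α × ℕ × ℕ => y.2.1 + y.2.2)
    hf (PT.const 0) (PT.nadd (PT.fst.comp PT.snd) (PT.snd.comp PT.snd))
    ⟨fun x => tsize (f x), hf.size, by
      intro x l₁ l₂ h
      rw [e, Nat.zero_add]
      have h1 := finPT_sum_le (f x)
      have h2 : (f x).sum = l₁.sum + l₂.sum := by rw [← h, List.sum_append]
      rw [tsize_nat]
      beta_reduce
      omega⟩
  refine h.congr fun x => ?_
  rw [e, Nat.zero_add]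

end

end Pool.Agent.FIM
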