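import Pool.Agent.FIM.DefsC

set_option autoImplicit false

namespace Pool.Agent.FIM

lemma E2a_full {m θ : ℕ} (f : ℕ → Bool)
    (hf : ∀ b, ((List.range m).filter fun i => f (b * m + i)).length < θ) (q : ℕ) :
    ((List.range (q * m)).filter fun j => f j).length ≤ q * θ := by
  induction q with
  | zero => simp
  | succ q ih =>
    have h1 := hf q
    rw [Nat.succ_mul, List.range_add, List.filter_append, List.length_append,
      List.filter_map, List.length_map, Nat.succ_mul]
    have h2 : ((List.range m).filter ((fun j => f j) ∘ fun x => q * m + x)).length =
        ((List.range m).filter fun i => f (q * m + i)).length := rfl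
    omega

/-- ROW E2a (Cnt.lean). Pure counting over the blocks. -/
theorem block_count {m θ T : ℕ} (hm : 0 < m) (f : ℕ → Bool)
    (hf : ∀ b, ((List.range m).filter fun i => f (b * m + i)).length < θ) :
    ((List.range T).filter fun j => f j).length ≤ T / m * θ + m := by
  have h1 := E2a_full f hf (T / m)
  have h2 : T = T / m * m + T % m := (Nat.div_add_mod' T m).symm
  have h3 := Nat.mod_lt T hm
  have h4 : ((List.range T).filter fun j => f j).length =
      ((List.range (T / m * m + T % m)).filter fun j => f j).length := by rw [← h2]
  rw [h4, List.range_add, List.filter_append, List.length_append]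
  have h5 := List.length_filter_le (fun j => f j) ((List.range (T % m)).map
    fun x => T / m * m + x)
  rw [List.length_map, List.length_range] at h5
  omega

end Pool.Agent.FIM
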