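import Pool.Agent.FIM.Defs

/-!
The universal machine with advice computes every function in polynomial time relative to the oracle.
-/

set_option autoImplicit false
set_option linter.unusedSectionVars false

namespace Pool.Agent.FIM

open Lib.helper60 Function Turing Computability
open MP_92db0f_lc hiding answers InNEXP mkC length_mkC PT_mkC answers_take length_answers
open MP_92db0f_lc_alg (answers PolyTime InNEXP)
open MP_92db0f_lc_gold (OPT Meas VK dcert VK_spec OPT_VK gen length_gen)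
open Pool.Agent.LCB

/-- Every function `W` computed in polynomial time relative to `O` is computed by the universal
machine with some code `z`, for all large lengths of the input. -/
theorem machine {O : Set (List Bool)} (D : ℕ) {W : List Bool × (List Bool × ℕ) → Bool}
    (hW : OPT O W) : ∃ (z : List Bool) (n₀ : ℕ), ∀ n : ℕ, n₀ ≤ n → ∀ X v : List Bool,
      X.length = n → v.length ≤ n ^ (D + 1) →
        mchI O D z n X v = W (X, (v, 2 ^ n ^ (D + 1) - 1)) := by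
  have hV : OPT O (fun w : List Bool × List Bool =>
      W (w.1, ((unpair w.2).1, (unpair w.2).2.length))) := by
    have h1 : PT (fun w : List Bool × List Bool => unpair w.2) := PT_unpair.comp PT.snd
    exact hW.comp_PT (PT.pair PT.fst (PT.pair h1.p1 (PT.length h1.p2)))
  obtain ⟨U, T, _, hspec⟩ := VK_spec hV
  obtain ⟨a, ha⟩ : ∃ a, a = T.eval 1 := ⟨_, rfl⟩
  obtain ⟨g, hg⟩ : ∃ g, g = T.natDegree := ⟨_, rfl⟩
  obtain ⟨z, hz⟩ : ∃ z, z = U 0 := ⟨_, rfl⟩
  refine ⟨z, a + 1 + 9 * g, fun n hn => ?_⟩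
  have hn1 : 1 ≤ n := by omega
  have hposD1 : 1 ≤ n ^ (D + 1) := Nat.one_le_pow _ _ hn1
  have hposD2 : 1 ≤ n ^ (D + 2) := Nat.one_le_pow _ _ hn1
  intro X v hX hv
  obtain ⟨P, hP⟩ : ∃ P, P = 2 ^ n ^ (D + 1) - 1 := ⟨_, rfl⟩
  obtain ⟨S, hS⟩ : ∃ S, S = 2 ^ n ^ (D + 2) - 1 := ⟨_, rfl⟩
  obtain ⟨T', hT'⟩ : ∃ T', T' = 2 ^ n ^ (D + 3) - 1 := ⟨_, rfl⟩
  obtain ⟨y, hy⟩ : ∃ y, y = encPair (v, List.replicate P true) := ⟨_, rfl⟩
  have h1 := hspec 0 X y S T'
  rw [← hz] at h1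
  have hVy : W ((X, y).1, ((unpair (X, y).2).1, (unpair (X, y).2).2.length)) =
      W (X, (v, P)) := by
    rw [hy]
    simp only [unpair_enc, List.length_replicate]
  rw [hVy] at h1
  have hdc : dcert v P S T' = encPair (y, encPair (List.replicate S true,
      List.replicate T' true)) := by
    unfold dcert
    rw [hy]
  unfold mchI
  rw [← hP, ← hS, ← hT', hdc]
  obtain ⟨N, hN⟩ : ∃ N, N = (encPair (X, y)).length := ⟨_, rfl⟩
  have hN1 : N ≤ 2 ^ (4 * n ^ (D + 1)) := by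
    rw [hN, hy, length_encPair, length_encPair, List.length_replicate, hX]
    have h3 : n ^ (D + 1) < 2 ^ n ^ (D + 1) := Nat.lt_two_pow_self
    have h4 : n ≤ n ^ (D + 1) := Nat.le_self_pow (by omega) n
    have h5 : 2 ^ (4 * n ^ (D + 1)) = 2 ^ n ^ (D + 1) * 2 ^ (3 * n ^ (D + 1)) := by
      rw [← pow_add]
      congr 1
      ring
    have h6 : 2 ^ 3 ≤ 2 ^ (3 * n ^ (D + 1)) := Nat.pow_le_pow_right (by norm_num) (by omega)
    have h7 : 2 ^ n ^ (D + 1) * 8 ≤ 2 ^ n ^ (D + 1) * 2 ^ (3 * n ^ (D + 1)) :=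
      Nat.mul_le_mul_left _ h6
    omega
  have hpk1 : n ^ (D + 1) * n = n ^ (D + 2) := (pow_succ _ _).symm
  have hpk2 : n ^ (D + 2) * n = n ^ (D + 3) := (pow_succ _ _).symm
  have hle1 : T.eval N ≤ S := by
    have h3 := MP_92db0f_lc_gold.eval_two_pow T N _ hN1
    rw [← ha, ← hg] at h3
    have h4 : a + 4 * n ^ (D + 1) * g + 1 ≤ n ^ (D + 2) := by
      have h5 : n ^ (D + 1) * (a + 1 + 9 * g) ≤ n ^ (D + 1) * n :=
        Nat.mul_le_mul_left _ (by omega)
      rw [hpk1] at h5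
      have h6 : n ^ (D + 1) * (a + 1 + 9 * g) = a * n ^ (D + 1) + n ^ (D + 1) +
        4 * n ^ (D + 1) * g + 5 * (n ^ (D + 1) * g) := by ring
      have h7 : a ≤ a * n ^ (D + 1) := Nat.le_mul_of_pos_right _ (by omega)
      omega
    have h5 : 2 ^ (a + 4 * n ^ (D + 1) * g + 1) ≤ 2 ^ n ^ (D + 2) :=
      Nat.pow_le_pow_right (by norm_num) h4
    have h6 : 1 ≤ 2 ^ (a + 4 * n ^ (D + 1) * g) := Nat.one_le_pow _ _ (by norm_num)
    rw [pow_succ] at h5
    omega
  have hle2 : T.eval (N + S) ≤ T' := by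
    have hn2 : N + S ≤ 2 ^ (6 * n ^ (D + 2)) := by
      have h3 : 2 ^ (4 * n ^ (D + 1)) ≤ 2 ^ (4 * n ^ (D + 2)) :=
        Nat.pow_le_pow_right (by norm_num) (by
          have := Nat.pow_le_pow_right hn1 (by omega : D + 1 ≤ D + 2)
          omega)
      have h4 : 2 ^ n ^ (D + 2) ≤ 2 ^ (4 * n ^ (D + 2)) :=
        Nat.pow_le_pow_right (by norm_num) (by omega)
      have h5 : 2 * 2 ^ (4 * n ^ (D + 2)) = 2 ^ (4 * n ^ (D + 2) + 1) := by
        rw [pow_succ]
        ring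
      have h6 : 2 ^ (4 * n ^ (D + 2) + 1) ≤ 2 ^ (6 * n ^ (D + 2)) :=
        Nat.pow_le_pow_right (by norm_num) (by omega)
      omega
    have h3 := MP_92db0f_lc_gold.eval_two_pow T (N + S) _ hn2
    rw [← ha, ← hg] at h3
    have h4 : a + 6 * n ^ (D + 2) * g + 1 ≤ n ^ (D + 3) := by
      have h5 : n ^ (D + 2) * (a + 1 + 9 * g) ≤ n ^ (D + 2) * n :=
        Nat.mul_le_mul_left _ (by omega)
      rw [hpk2] at h5
      have h6 : n ^ (D + 2) * (a + 1 + 9 * g) = a * n ^ (D + 2) + n ^ (D + 2) +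
        6 * n ^ (D + 2) * g + 3 * (n ^ (D + 2) * g) := by ring
      have h7 : a ≤ a * n ^ (D + 2) := Nat.le_mul_of_pos_right _ (by omega)
      omega
    have h5 : 2 ^ (a + 6 * n ^ (D + 2) * g + 1) ≤ 2 ^ n ^ (D + 3) :=
      Nat.pow_le_pow_right (by norm_num) h4
    have h6 : 1 ≤ 2 ^ (a + 6 * n ^ (D + 2) * g) := Nat.one_le_pow _ _ (by norm_num)
    rw [pow_succ] at h5
    omega
  rw [← hN] at h1
  cases h3 : W (X, (v, P))
  · rw [h3] at h1
    rw [Bool.eq_false_iff]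
    intro h5
    exact absurd (h1.1 h5) (by simp)
  · rw [h3] at h1
    exact h1.2 rfl hle1 hle2

end Pool.Agent.FIM
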