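import Pool.Agent.FIM.Defs

/-!
The potential argument: a predictor that is never wrong says something about few positions.
-/

set_option autoImplicit false

namespace Pool.Agent.FIM

open Lib.helper60 Function Turing Computability
open MP_92db0f_lc hiding answers InNEXP mkC length_mkC PT_mkC answers_take length_answers
open MP_92db0f_lc_alg (answers PolyTime InNEXP)
open MP_92db0f_lc_gold (OPT Meas VK dcert VK_spec OPT_VK gen length_gen)
open Pool.Agent.LCB

/-- the number of the positions below `t` at which `T a` holds -/
private def potC (T : ℕ → ℕ → Bool) (a t : ℕ) : ℕ := ((List.range t).filter fun j => T a j).length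

/-- the predictor `a` has been right so far -/
private def potA (T : ℕ → ℕ → Bool) (v : ℕ → Bool) (t a : ℕ) (σ : Bool) : Bool :=
  (List.range t).all fun j => !T a j || (v j == σ)

/-- its weight -/
private def potF (K : ℕ) (T : ℕ → ℕ → Bool) (v : ℕ → Bool) (t a : ℕ) (σ : Bool) : ℕ :=
  bif potA T v t a σ then p2 K (potC T a t) + 1 else 0

private lemma p2_succ_le (K m : ℕ) : p2 K (m + 1) + 1 ≤ 2 * (p2 K m + 1) := by
  rw [p2_eq, p2_eq]
  have h : 2 ^ (m + 1) = 2 * 2 ^ m := by ring
  have h1 : 0 < 2 ^ m := by positivity
  omega

private lemma hist_succ (K : ℕ) (T : ℕ → ℕ → Bool) (N t : ℕ) :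
    hist K T N (t + 1) = hist K T N t ++ [val K T N t] := rfl

private lemma length_hist (K : ℕ) (T : ℕ → ℕ → Bool) (N t : ℕ) :
    (hist K T N t).length = t := length_gen _ _ _

private lemma getD_hist (K : ℕ) (T : ℕ → ℕ → Bool) (N : ℕ) {j t : ℕ} (h : j < t) :
    (hist K T N t).getD j false = val K T N j := by
  induction t with
  | zero => omega
  | succ t ih =>
    rw [hist_succ]
    rcases Nat.lt_succ_iff_lt_or_eq.1 h with h1 | h1
    · rw [List.getD_append _ _ _ _ (by rw [length_hist]; exact h1)]
      exact ih h1
    · subst h1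
      rw [List.getD_append_right _ _ _ _ (by rw [length_hist]), length_hist]
      simp

private lemma list_sum_range (f : ℕ → ℕ) (N : ℕ) :
    ((List.range N).map f).sum = ∑ a ∈ Finset.range N, f a := by
  induction N with
  | zero => simp
  | succ n ih => rw [List.range_succ, List.map_append, List.sum_append, ih,
      Finset.sum_range_succ]; simp

private lemma wgt_hist (K : ℕ) (T : ℕ → ℕ → Bool) (N t : ℕ) (σ : Bool) :
    wgt K T N (hist K T N t) σ =
      ∑ a ∈ Finset.range N, bif T a t then potF K T (val K T N) t a σ else 0 := by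
  unfold wgt
  rw [list_sum_range]
  refine Finset.sum_congr rfl fun a _ => ?_
  rw [length_hist]
  have h1 : ((List.range t).all fun j => !T a j || ((hist K T N t).getD j false == σ)) =
      potA T (val K T N) t a σ := by
    unfold potA
    rw [Bool.eq_iff_iff, List.all_eq_true, List.all_eq_true]
    refine forall₂_congr fun j hj => ?_
    rw [getD_hist K T N (List.mem_range.1 hj)]
  rw [h1]
  unfold potF potC
  cases T a t <;> simp

private lemma potF_step (K : ℕ) (T : ℕ → ℕ → Bool) (v : ℕ → Bool) (t a : ℕ) (σ : Bool) :
    potF K T v (t + 1) a σ + (bif T a t && !(v t == σ) then potF K T v t a σ else 0) ≤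
      potF K T v t a σ + (bif T a t && (v t == σ) then potF K T v t a σ else 0) := by
  have h1 : potA T v (t + 1) a σ = (potA T v t a σ && (!T a t || (v t == σ))) := by
    unfold potA
    rw [List.range_succ, List.all_append]
    simp
  have h2 : potC T a (t + 1) = potC T a t + (bif T a t then 1 else 0) := by
    unfold potC
    rw [List.range_succ, List.filter_append, List.length_append]
    cases hT : T a t <;> simp [hT]
  unfold potF
  rw [h1, h2]
  have h3 := p2_succ_le K (potC T a t)
  cases potA T v t a σ <;> cases T a t <;> cases (v t == σ) <;> simp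
  omega

/-- the total weight -/
private def potPhi (K : ℕ) (T : ℕ → ℕ → Bool) (v : ℕ → Bool) (N t : ℕ) : ℕ :=
  (∑ a ∈ Finset.range N, potF K T v t a true) + ∑ a ∈ Finset.range N, potF K T v t a false

private lemma potPhi_zero (K : ℕ) (T : ℕ → ℕ → Bool) (v : ℕ → Bool) (N : ℕ) :
    potPhi K T v N 0 = 2 * N := by
  have h : ∀ a σ, potF K T v 0 a σ = 1 := by
    intro a σ
    unfold potF potA potC
    simp [p2_eq]
  unfold potPhi
  simp only [h, Finset.sum_const, Finset.card_range, smul_eq_mul, mul_one]
  omega

private lemma potPhi_succ (K : ℕ) (T : ℕ → ℕ → Bool) (N t : ℕ) :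
    potPhi K T (val K T N) N (t + 1) ≤ potPhi K T (val K T N) N t := by
  set v := val K T N with hv
  have hW : ∀ σ, wgt K T N (hist K T N t) σ =
      ∑ a ∈ Finset.range N, bif T a t then potF K T v t a σ else 0 := fun σ => wgt_hist K T N t σ
  have hs : ∀ σ, (∑ a ∈ Finset.range N, potF K T v (t + 1) a σ) +
      (bif (v t == σ) then 0 else wgt K T N (hist K T N t) σ) ≤
      (∑ a ∈ Finset.range N, potF K T v t a σ) +
      (bif (v t == σ) then wgt K T N (hist K T N t) σ else 0) := by
    intro σ
    have h := Finset.sum_le_sum (s := Finset.range N) fun a (_ : a ∈ Finset.range N) =>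
      potF_step K T v t a σ
    rw [Finset.sum_add_distrib, Finset.sum_add_distrib] at h
    rw [hW]
    cases hc : (v t == σ)
    · simpa [hc] using h
    · simpa [hc] using h
  have h1 := hs true
  have h2 := hs false
  have h3 : v t = decide (wgt K T N (hist K T N t) true < wgt K T N (hist K T N t) false) := rfl
  unfold potPhi
  by_cases hlt : wgt K T N (hist K T N t) true < wgt K T N (hist K T N t) false
  · have h4 : v t = true := by rw [h3]; exact decide_eq_true hlt
    rw [h4] at h1 h2
    simp only [beq_self_eq_true, cond_true, Bool.true_beq, Bool.cond_false] at h1 h2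
    simp at h1 h2
    omega
  · have h4 : v t = false := by rw [h3]; exact decide_eq_false hlt
    rw [h4] at h1 h2
    simp at h1 h2
    omega

private lemma potPhi_le (K : ℕ) (T : ℕ → ℕ → Bool) (N t : ℕ) :
    potPhi K T (val K T N) N t ≤ 2 * N := by
  induction t with
  | zero => exact (potPhi_zero K T _ N).le
  | succ t ih => exact (potPhi_succ K T N t).trans ih

/-- ROW A (Pot.lean). The potential argument. -/
theorem pot {K N : ℕ} {T : ℕ → ℕ → Bool} (hK : 2 * N < K) {a t : ℕ} (ha : a < N) (σ : Bool)
    (h : ∀ j < t, T a j = true → val K T N j = σ) :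
    2 ^ ((List.range t).filter fun j => T a j).length ≤ 2 * N := by
  have h1 : potA T (val K T N) t a σ = true := by
    unfold potA
    rw [List.all_eq_true]
    intro j hj
    cases hT : T a j
    · simp
    · rw [h j (List.mem_range.1 hj) hT]
      simp
  have h2 : potF K T (val K T N) t a σ ≤ potPhi K T (val K T N) N t := by
    have h3 : ∀ τ, potF K T (val K T N) t a τ ≤ ∑ b ∈ Finset.range N, potF K T (val K T N) t b τ :=
      fun τ => Finset.single_le_sum (f := fun b => potF K T (val K T N) t b τ)
        (fun _ _ => Nat.zero_le _) (Finset.mem_range.2 ha)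
    unfold potPhi
    have h4 := h3 true
    have h5 := h3 false
    cases σ <;> omega
  have h3 := h2.trans (potPhi_le K T N t)
  unfold potF at h3
  rw [h1, cond_true, p2_eq] at h3
  change min K (2 ^ ((List.range t).filter fun j => T a j).length - 1) + 1 ≤ 2 * N at h3
  have h4 : 0 < 2 ^ ((List.range t).filter fun j => T a j).length := by positivity
  omega

end Pool.Agent.FIM
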