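import Pool.Agent.FIM.Caps
import Pool.Agent.FIM.Mach
import Pool.Agent.FIM.Pot

/-!
Every set of the class with advice which is contained in the diagonal language or disjoint from it
is small at every large length.
-/

set_option autoImplicit false
set_option linter.unusedSectionVars false

namespace Pool.Agent.FIM

open Lib.helper60 Function Turing Computability
open MP_92db0f_lc hiding answers InNEXP mkC length_mkC PT_mkC answers_take length_answers
open MP_92db0f_lc_alg (answers PolyTime InNEXP)
open MP_92db0f_lc_gold (OPT Meas VK dcert VK_spec OPT_VK gen length_gen)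
open Pool.Agent.LCB

/-- the advice and the code of the machine are short -/
lemma imm_size (C D e : ℕ) {n : ℕ} (hn : C + 2 ^ D + e + 2 ≤ n) :
    (n + C) ^ D + e + 1 ≤ n ^ (D + 1) := by
  have h0 : 0 < 2 ^ D := by positivity
  have h1 : (n + C) ^ D ≤ (2 * n) ^ D := Nat.pow_le_pow_left (by omega) _
  rw [mul_pow] at h1
  have hp : 1 ≤ n ^ D := Nat.one_le_pow _ _ (by omega)
  have h2 : n ^ D * (2 ^ D + (e + 1)) ≤ n ^ D * n := Nat.mul_le_mul_left _ (by omega)
  rw [← pow_succ, Nat.mul_add, Nat.mul_comm (n ^ D) (2 ^ D)] at h2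
  have h3 : e + 1 ≤ n ^ D * (e + 1) := Nat.le_mul_of_pos_left _ (by omega)
  omega

lemma imm_num1 (p : ℕ) : 2 * (2 ^ (p + 1) - 1) < 2 ^ (p + 3) - 1 := by
  have h : 0 < 2 ^ p := by positivity
  rw [pow_add, pow_add]
  omega

lemma imm_num2 (p : ℕ) : 2 * (2 ^ (p + 1) - 1) < 2 ^ (p + 2) := by
  have h : 0 < 2 ^ p := by positivity
  rw [pow_add, pow_add]
  omega

/-- the number of the strings of length `n` in `A` is the number of their positions -/
lemma imm_count (A : Set (List Bool)) (n : ℕ) (t : ℕ → Bool)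
    (h : ∀ j < 2 ^ n, str (2 ^ n - 1 + j) ∈ A → t j = true) :
    {x : List Bool | x ∈ A ∧ x.length = n}.ncard ≤ ((List.range (2 ^ n)).filter fun j => t j).length := by
  classical
  have hsub : {x : List Bool | x ∈ A ∧ x.length = n} ⊆
      (((List.range (2 ^ n)).filter fun j => t j).toFinset.image
        fun j => str (2 ^ n - 1 + j) : Finset (List Bool)) := by
    rintro x ⟨hxA, hxn⟩
    have h1 := vl_lt x
    have h2 := le_vl x
    rw [hxn] at h1 h2
    rw [pow_succ] at h1
    have h3 : 2 ^ n - 1 + (vl x - (2 ^ n - 1)) = vl x := by omega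
    have h4 : str (2 ^ n - 1 + (vl x - (2 ^ n - 1))) = x := by rw [h3, str_vl]
    simp only [Finset.coe_image, Set.mem_image, Finset.mem_coe, List.mem_toFinset, List.mem_filter,
      List.mem_range]
    refine ⟨vl x - (2 ^ n - 1), ⟨by omega, ?_⟩, h4⟩
    exact h _ (by omega) (by rw [h4]; exact hxA)
  calc {x : List Bool | x ∈ A ∧ x.length = n}.ncard
      ≤ ((((List.range (2 ^ n)).filter fun j => t j).toFinset.image
        fun j => str (2 ^ n - 1 + j) : Finset (List Bool)) : Set (List Bool)).ncard :=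
        Set.ncard_le_ncard hsub (Finset.finite_toSet _)
    _ = (((List.range (2 ^ n)).filter fun j => t j).toFinset.image
        fun j => str (2 ^ n - 1 + j)).card := Set.ncard_coe_finset _
    _ ≤ ((List.range (2 ^ n)).filter fun j => t j).toFinset.card := Finset.card_image_le
    _ ≤ ((List.range (2 ^ n)).filter fun j => t j).length := List.toFinset_card_le _

/-- Every set of the class with advice which is contained in the diagonal language or disjoint from
it has at most `n ^ (D + 1) + 2` strings of every large length `n`. -/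
theorem immune (O : Set (List Bool)) (D : ℕ) {A : Set (List Bool)} (hA : InEAR O D A)
    (h : A ⊆ LIM O D ∨ Disjoint A (LIM O D)) :
    ∃ n₀ : ℕ, ∀ n : ℕ, n₀ ≤ n → {x : List Bool | x ∈ A ∧ x.length = n}.ncard ≤
      n ^ (D + 1) + 2 := by
  obtain ⟨W, b, C, hW, hb, hL⟩ := hA
  obtain ⟨z, n₀, hz⟩ := machine D hW
  refine ⟨n₀ + (C + 2 ^ D + (2 * z.length + 2) + 2), fun n hn => ?_⟩
  have hsz := imm_size C D (2 * z.length + 2) (n := n) (by omega)
  have hbn := hb n
  have h2D : 0 < 2 ^ D := by positivity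
  have hbn' : (b n).length ≤ n ^ (D + 1) := by omega
  -- the set at the length `n`
  have hmem : ∀ x : List Bool, x.length = n → (x ∈ A ↔ mchI O D z n x (b n) = true) := by
    intro x hx
    have h1 := hL x (2 ^ n ^ (D + 1) - 1) (by
      rw [hx]
      have h2 : 2 ^ ((n + C) ^ D + 1) ≤ 2 ^ n ^ (D + 1) :=
        Nat.pow_le_pow_right (by norm_num) (by omega)
      rw [pow_succ] at h2
      have h3 : 1 ≤ 2 ^ ((n + C) ^ D) := Nat.one_le_pow _ _ (by norm_num)
      omega)
    rw [hx] at h1
    rw [h1, hz n (by omega) x (b n) hx hbn']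
  -- the predictor
  obtain ⟨a, ha⟩ : ∃ a, a = vl (encPair (z, b n)) := ⟨_, rfl⟩
  have hsa : str a = encPair (z, b n) := by rw [ha, str_vl]
  have haN : a < 2 ^ (n ^ (D + 1) + 1) - 1 := by
    have h1 := vl_lt (encPair (z, b n))
    rw [← ha, length_encPair] at h1
    have h2 : 2 ^ (2 * z.length + 2 + (b n).length + 1) ≤ 2 ^ (n ^ (D + 1) + 1) :=
      Nat.pow_le_pow_right (by norm_num) (by omega)
    omega
  have hT : ∀ j < 2 ^ n, (TI O D n a j = true ↔ str (2 ^ n - 1 + j) ∈ A) := by
    intro j hj
    rw [hmem _ (length_str_eq hj)]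
    unfold TI
    rw [hsa, unpair_enc]
  -- the potential argument
  have key : ∀ σ : Bool, (∀ j < 2 ^ n, TI O D n a j = true → valI O D n j = σ) →
      ((List.range (2 ^ n)).filter fun j => TI O D n a j).length ≤ n ^ (D + 1) + 2 := by
    intro σ hσ
    have h1 := pot (K := 2 ^ (n ^ (D + 1) + 3) - 1) (N := 2 ^ (n ^ (D + 1) + 1) - 1)
      (T := TI O D n) (imm_num1 _) haN σ hσ
    have h4 := (Nat.pow_lt_pow_iff_right (by norm_num : 1 < 2)).1 (h1.trans_lt (imm_num2 _))
    omega
  refine (imm_count A n (TI O D n a) fun j hj hjA => (hT j hj).2 hjA).trans ?_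
  have hval : ∀ j < 2 ^ n, (valI O D n j = true ↔ str (2 ^ n - 1 + j) ∈ LIM O D) := by
    intro j hj
    rw [mem_LIM_iff, length_str_eq hj, vl_str, Nat.add_sub_cancel_left]
  rcases h with h | h
  · exact key true fun j hj hTj => (hval j hj).2 (h ((hT j hj).1 hTj))
  · refine key false fun j hj hTj => ?_
    rw [Bool.eq_false_iff]
    intro hv
    exact Set.disjoint_left.1 h ((hT j hj).1 hTj) ((hval j hj).1 hv)

end Pool.Agent.FIM
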