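import Pool.Agent.FIM.DefsC

/-!
A predictor that is never wrong says something about few positions (if the total weight is small).
-/

set_option autoImplicit false

namespace Pool.Agent.FIM

open Lib.helper60 Function Turing Computability
open MP_92db0f_lc hiding answers InNEXP mkC length_mkC PT_mkC answers_take length_answers
open MP_92db0f_lc_alg (answers PolyTime InNEXP)
open MP_92db0f_lc_gold (OPT Meas VK dcert VK_spec OPT_VK gen length_gen)
open Pool.Agent.LCB

private lemma k5b_hic_succ (K : ℕ) (T : ℕ → ℕ → Bool) (N m θ R t : ℕ) :
    hic K T N m θ R (t + 1) = hic K T N m θ R t ++ [vac K T N m θ R t] := rfl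

/-- the length of the list of values -/
theorem length_hic (K : ℕ) (T : ℕ → ℕ → Bool) (N m θ R t : ℕ) :
    (hic K T N m θ R t).length = t := length_gen _ _ _

/-- the entries of the list of values -/
theorem getD_hic (K : ℕ) (T : ℕ → ℕ → Bool) (N m θ R : ℕ) {j t : ℕ} (h : j < t) :
    (hic K T N m θ R t).getD j false = vac K T N m θ R j := by
  induction t with
  | zero => omega
  | succ t ih =>
    rw [k5b_hic_succ]
    rcases Nat.lt_succ_iff_lt_or_eq.1 h with h1 | h1
    · rw [List.getD_append _ _ _ _ (by rw [length_hic]; exact h1)]
      exact ih h1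
    · subst h1
      rw [List.getD_append_right _ _ _ _ (by rw [length_hic]), length_hic]
      simp

private lemma k5b_sum_range (f : ℕ → ℕ) (N : ℕ) :
    ((List.range N).map f).sum = ∑ a ∈ Finset.range N, f a := by
  induction N with
  | zero => simp
  | succ n ih => rw [List.range_succ, List.map_append, List.sum_append, ih,
      Finset.sum_range_succ]; simp

/-- ROW K5b (Inv.lean). A pair that is alive has a small weight. -/
theorem alive_count {N K m θ R t a : ℕ} {T : ℕ → ℕ → Bool} {σ : Bool} (hK : 2 * N < K)
    (ha : a < N) (hw : wsum K T N (hic K T N m θ R t) ≤ 2 * N)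
    (h : ∀ j < t, T a j = true → vac K T N m θ R j = σ) :
    2 ^ ((List.range t).filter fun j => T a j).length ≤ 2 * N := by
  have h1 : wone K T (hic K T N m θ R t) a σ =
      p2 K ((List.range t).filter fun j => T a j).length + 1 := by
    unfold wone
    rw [length_hic]
    have h2 : ((List.range t).all fun j =>
        !T a j || ((hic K T N m θ R t).getD j false == σ)) = true := by
      rw [List.all_eq_true]
      intro j hj
      rw [getD_hic K T N m θ R (List.mem_range.1 hj)]
      cases hT : T a j
      · simp
      · rw [h j (List.mem_range.1 hj) hT]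
        simp
    rw [h2, cond_true]
  have h3 : wone K T (hic K T N m θ R t) a σ ≤ wsum K T N (hic K T N m θ R t) := by
    unfold wsum
    rw [k5b_sum_range]
    have h4 := Finset.single_le_sum
      (f := fun a => wone K T (hic K T N m θ R t) a true + wone K T (hic K T N m θ R t) a false)
      (fun _ _ => Nat.zero_le _) (Finset.mem_range.2 ha)
    refine le_trans ?_ h4
    cases σ
    · exact Nat.le_add_left _ _
    · exact Nat.le_add_right _ _
  have h5 := h3.trans hw
  rw [h1, p2_eq] at h5
  have h6 : 0 < 2 ^ ((List.range t).filter fun j => T a j).length := by positivity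
  omega

end Pool.Agent.FIM
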