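import Pool.Agent.FIM.Exg
import Pool.Agent.FIM.Inv2

/-!
The blocks of the diagonal language: every block is a good continuation.
-/

set_option autoImplicit false
set_option linter.unusedSectionVars false

namespace Pool.Agent.FIM

open Lib.helper60 Function Turing Computability
open MP_92db0f_lc hiding answers InNEXP mkC length_mkC PT_mkC answers_take length_answers
open MP_92db0f_lc_alg (answers PolyTime InNEXP)
open MP_92db0f_lc_gold (OPT Meas VK dcert VK_spec OPT_VK gen length_gen)
open Pool.Agent.LCB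

lemma K5a_headD {l : List ℕ} (h : l ≠ []) : l.headD 0 ∈ l := by
  cases l with
  | nil => exact absurd rfl h
  | cons a l => simp

lemma K5a_pick {K : ℕ} {T : ℕ → ℕ → Bool} {N m θ R : ℕ} {h : List Bool}
    (hR : 2 ^ (m + 1) ≤ R + 1) (hex : ∃ s, good K T N m θ h s = true) :
    good K T N m θ h (pick K T N m θ R h) = true := by
  obtain ⟨s, hs⟩ := hex
  have hlen : s.length = m := by
    unfold good at hs
    simp only [Bool.and_eq_true, decide_eq_true_eq] at hs
    exact hs.1.1
  have h1 := vl_lt s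
  rw [hlen] at h1
  have h2 : vl s ∈ (List.range R).filter fun k => good K T N m θ h (str k) := by
    rw [List.mem_filter, List.mem_range, str_vl]
    exact ⟨by omega, hs⟩
  have h3 := K5a_headD (List.ne_nil_of_mem h2)
  rw [List.mem_filter] at h3
  exact h3.2

lemma K5a_take (K : ℕ) (T : ℕ → ℕ → Bool) (N m θ R : ℕ) {t t' : ℕ} (h : t ≤ t') :
    (hic K T N m θ R t').take t = hic K T N m θ R t := by
  induction t' with
  | zero =>
    have : t = 0 := by omega
    subst this
    rfl
  | succ t' ih =>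
    rcases Nat.le_succ_iff.mp h with h1 | h1
    · have h2 : hic K T N m θ R (t' + 1) =
          hic K T N m θ R t' ++ [vac K T N m θ R t'] := rfl
      rw [h2, List.take_append_of_le_length (by rw [length_hic]; exact h1)]
      exact ih h1
    · rw [h1]
      exact List.take_of_length_le (by rw [length_hic])

lemma K5a_vac {K : ℕ} {T : ℕ → ℕ → Bool} {N m θ R : ℕ} {b i : ℕ} (hi : i < m) :
    vac K T N m θ R (b * m + i) =
      (pick K T N m θ R (hic K T N m θ R (b * m))).getD i false := by
  have hm : 0 < m := by omega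
  have hd : (b * m + i) / m = b := by
    rw [mul_comm, Nat.mul_add_div hm, Nat.div_eq_of_lt hi, add_zero]
  have hmd : (b * m + i) % m = i := by
    rw [mul_comm, Nat.mul_add_mod, Nat.mod_eq_of_lt hi]
  unfold vac stc
  rw [length_hic, hd, hmd, K5a_take K T N m θ R (Nat.le_add_right _ _)]

lemma K5a_block {K : ℕ} {T : ℕ → ℕ → Bool} {N m θ R : ℕ} {b : ℕ}
    (hlen : (pick K T N m θ R (hic K T N m θ R (b * m))).length = m) {i : ℕ} (hi : i ≤ m) :
    hic K T N m θ R (b * m + i) = hic K T N m θ R (b * m) ++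
      (pick K T N m θ R (hic K T N m θ R (b * m))).take i := by
  induction i with
  | zero => simp
  | succ i ih =>
    have h2 : hic K T N m θ R (b * m + (i + 1)) =
        hic K T N m θ R (b * m + i) ++ [vac K T N m θ R (b * m + i)] := rfl
    rw [h2, ih (by omega), K5a_vac (by omega), List.append_assoc, List.take_add_one,
      List.getD_eq_getElem _ _ (by omega), List.getElem?_eq_getElem (by omega)]
    rfl

lemma K5a_nil (K : ℕ) (T : ℕ → ℕ → Bool) (N : ℕ) : wsum K T N [] = 2 * N := by
  unfold wsum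
  have h : ∀ a σ, wone K T [] a σ = 1 := by
    intro a σ
    unfold wone
    simp [p2_eq]
  simp only [h, List.map_const', List.sum_replicate, List.length_range, smul_eq_mul]
  ring

lemma K5a_main {p M N K R : ℕ} (hp : 1 ≤ p) (hN : N * (2 * N + 1) < 2 ^ M)
    (hR : 2 ^ (8 * p ^ 2 * M + 1) ≤ R + 1) (T : ℕ → ℕ → Bool) (b : ℕ) :
    wsum K T N (hic K T N (8 * p ^ 2 * M) ((4 * p ^ 2 + 3 * p) * M) R (b * (8 * p ^ 2 * M))) ≤
      2 * N := by
  induction b with
  | zero =>
    rw [Nat.zero_mul]
    exact (K5a_nil K T N).le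
  | succ b ih =>
    have hg := K5a_pick (R := R) hR (exists_good hp hN T _ ih)
    have hg' := hg
    unfold good at hg'
    simp only [Bool.and_eq_true, decide_eq_true_eq] at hg'
    obtain ⟨⟨hlen, hw⟩, _⟩ := hg'
    have h1 := K5a_block (b := b) hlen le_rfl
    rw [List.take_of_length_le hlen.le] at h1
    rw [show (b + 1) * (8 * p ^ 2 * M) = b * (8 * p ^ 2 * M) + 8 * p ^ 2 * M from
      Nat.succ_mul _ _, h1]
    exact hw.trans ih

/-- ROW K5a (Inv.lean), from K4. The blocks. -/
theorem hic_block {p M N K R b : ℕ} (hp : 1 ≤ p) (hN : N * (2 * N + 1) < 2 ^ M)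
    (hR : 2 ^ (8 * p ^ 2 * M + 1) ≤ R + 1) (T : ℕ → ℕ → Bool) :
    wsum K T N (hic K T N (8 * p ^ 2 * M) ((4 * p ^ 2 + 3 * p) * M) R (b * (8 * p ^ 2 * M))) ≤
      2 * N ∧ ∀ a < N, ((List.range (8 * p ^ 2 * M)).filter fun i =>
        T a (b * (8 * p ^ 2 * M) + i) ==
          vac K T N (8 * p ^ 2 * M) ((4 * p ^ 2 + 3 * p) * M) R
            (b * (8 * p ^ 2 * M) + i)).length < (4 * p ^ 2 + 3 * p) * M := by
  have ih := K5a_main (K := K) hp hN hR T b
  refine ⟨ih, fun a ha => ?_⟩
  have hg := K5a_pick (R := R) hR (exists_good hp hN T _ ih)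
  unfold good at hg
  simp only [Bool.and_eq_true, decide_eq_true_eq, List.all_eq_true, List.mem_range] at hg
  obtain ⟨_, h2⟩ := hg
  have h3 := h2 a ha
  rw [length_hic] at h3
  have h4 : ((List.range (8 * p ^ 2 * M)).filter fun i =>
        T a (b * (8 * p ^ 2 * M) + i) ==
          vac K T N (8 * p ^ 2 * M) ((4 * p ^ 2 + 3 * p) * M) R
            (b * (8 * p ^ 2 * M) + i)) =
      ((List.range (8 * p ^ 2 * M)).filter fun i => T a (b * (8 * p ^ 2 * M) + i) ==
        (pick K T N (8 * p ^ 2 * M) ((4 * p ^ 2 + 3 * p) * M) R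
          (hic K T N (8 * p ^ 2 * M) ((4 * p ^ 2 + 3 * p) * M) R
            (b * (8 * p ^ 2 * M)))).getD i false) := by
    apply List.filter_congr
    intro i hi
    rw [K5a_vac (List.mem_range.mp hi)]
  rw [h4]
  exact h3

end Pool.Agent.FIM
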