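import Pool.Agent.FIM.CapsC
import Pool.Agent.FIM.Cnt
import Pool.Agent.FIM.Inv
import Pool.Agent.FIM.Inv2
import Pool.Agent.FIM.Imm

/-!
Every language of the class with advice agrees with the diagonal language on about one half of the
inputs of every large length, and has few strings of every large length if it is contained in the
diagonal language or disjoint from it.
-/

set_option autoImplicit false

namespace Pool.Agent.FIM

open Lib.helper60 Function Turing Computability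
open MP_92db0f_lc hiding answers InNEXP mkC length_mkC PT_mkC answers_take length_answers KL
open MP_92db0f_lc_alg (answers PolyTime InNEXP)
open MP_92db0f_lc_gold (OPT Meas VK dcert VK_spec OPT_VK gen length_gen)
open Pool.Agent.LCB

/-- every language of the class is one of the predictors at every large length -/
lemma avg_predictor (O : Set (List Bool)) (D : ℕ) {A : Set (List Bool)} (hA : InEAR O D A) :
    ∃ n₀ : ℕ, ∀ n : ℕ, n₀ ≤ n → ∃ a < 2 ^ (n ^ (D + 1) + 1) - 1, ∀ j < 2 ^ n,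
      (TI O D n a j = true ↔ str (2 ^ n - 1 + j) ∈ A) := by
  obtain ⟨W, b, C, hW, hb, hL⟩ := hA
  obtain ⟨z, n₀, hz⟩ := machine D hW
  refine ⟨n₀ + (C + 2 ^ D + (2 * z.length + 2) + 2), fun n hn => ?_⟩
  have hsz := imm_size C D (2 * z.length + 2) (n := n) (by omega)
  have hbn := hb n
  have h2D : 0 < 2 ^ D := by positivity
  have hbn' : (b n).length ≤ n ^ (D + 1) := by omega
  have hmem : ∀ x : List Bool, x.length = n → (x ∈ A ↔ mchI O D z n x (b n) = true) := by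
    intro x hx
    have h1 := hL x (2 ^ n ^ (D + 1) - 1) (by
      rw [hx]
      have h2 : 2 ^ ((n + C) ^ D + 1) ≤ 2 ^ n ^ (D + 1) :=
        Nat.pow_le_pow_right (by norm_num) (by omega)
      rw [pow_succ] at h2
      have h3 : 1 ≤ 2 ^ ((n + C) ^ D) := Nat.one_le_pow _ _ (by norm_num)
      omega)
    rw [hx] at h1
    rw [h1, hz n (by omega) x (b n) hx hbn']
  have haN : vl (encPair (z, b n)) < 2 ^ (n ^ (D + 1) + 1) - 1 := by
    have h1 := vl_lt (encPair (z, b n))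
    rw [length_encPair] at h1
    have h2 : 2 ^ (2 * z.length + 2 + (b n).length + 1) ≤ 2 ^ (n ^ (D + 1) + 1) :=
      Nat.pow_le_pow_right (by norm_num) (by omega)
    omega
  refine ⟨vl (encPair (z, b n)), haN, ?_⟩
  intro j hj
  rw [hmem _ (length_str_eq hj)]
  unfold TI
  rw [str_vl, unpair_enc]

lemma avg_bl_pos (D κ n : ℕ) : 0 < bl D κ n := by
  unfold bl
  positivity

lemma avg_N (n D : ℕ) : (2 ^ (n ^ (D + 1) + 1) - 1) * (2 * (2 ^ (n ^ (D + 1) + 1) - 1) + 1) <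
    2 ^ (2 * n ^ (D + 1) + 3) := by
  obtain ⟨Q, hQ⟩ : ∃ Q, Q = 2 ^ (n ^ (D + 1) + 1) := ⟨_, rfl⟩
  have h1 : 0 < Q := by rw [hQ]; positivity
  have h2 : 2 ^ (2 * n ^ (D + 1) + 3) = Q * (2 * Q) := by
    rw [hQ, ← pow_succ', ← pow_add]
    congr 1
    omega
  rw [← hQ, h2]
  calc (Q - 1) * (2 * (Q - 1) + 1) ≤ (Q - 1) * (2 * Q) := Nat.mul_le_mul_left _ (by omega)
    _ < Q * (2 * Q) := Nat.mul_lt_mul_of_pos_right (by omega) (by omega)

/-- the values of the diagonal language in a block -/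
lemma avg_block (O : Set (List Bool)) (D κ n : ℕ) {a : ℕ} (ha : a < 2 ^ (n ^ (D + 1) + 1) - 1)
    (b : ℕ) : ((List.range (bl D κ n)).filter fun i =>
      TI O D n a (b * bl D κ n + i) == valA O D κ n (b * bl D κ n + i)).length < th D κ n := by
  have h1 : 1 ≤ 2 ^ (bl D κ n + 1) := Nat.one_le_two_pow
  exact (hic_block (p := (n + 1) ^ κ) (M := 2 * n ^ (D + 1) + 3)
    (N := 2 ^ (n ^ (D + 1) + 1) - 1) (K := 2 ^ (n ^ (D + 1) + 3) - 1)
    (R := 2 ^ (bl D κ n + 1) - 1) (b := b) (Nat.one_le_pow _ _ (by omega)) (avg_N n D)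
    (show 2 ^ (bl D κ n + 1) ≤ _ by omega) (TI O D n)).2 a ha

lemma avg_wsum (O : Set (List Bool)) (D κ n b : ℕ) :
    wsum (2 ^ (n ^ (D + 1) + 3) - 1) (TI O D n) (2 ^ (n ^ (D + 1) + 1) - 1)
      (hic (2 ^ (n ^ (D + 1) + 3) - 1) (TI O D n) (2 ^ (n ^ (D + 1) + 1) - 1) (bl D κ n)
        (th D κ n) (2 ^ (bl D κ n + 1) - 1) (b * bl D κ n)) ≤
      2 * (2 ^ (n ^ (D + 1) + 1) - 1) := by
  have h1 : 1 ≤ 2 ^ (bl D κ n + 1) := Nat.one_le_two_pow
  exact (hic_block (p := (n + 1) ^ κ) (M := 2 * n ^ (D + 1) + 3)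
    (N := 2 ^ (n ^ (D + 1) + 1) - 1) (K := 2 ^ (n ^ (D + 1) + 3) - 1)
    (R := 2 ^ (bl D κ n + 1) - 1) (b := b) (Nat.one_le_pow _ _ (by omega)) (avg_N n D)
    (show 2 ^ (bl D κ n + 1) ≤ _ by omega) (TI O D n)).1

lemma avg_arith {p p' M B Q g : ℕ} (hp : 1 ≤ p') (hpp : p' ≤ p)
    (hB : B * (8 * p ^ 2 * M) ≤ Q) (hQ : 8 * p * (8 * p ^ 2 * M) ≤ Q)
    (hg : g ≤ B * ((4 * p ^ 2 + 3 * p) * M) + 8 * p ^ 2 * M) : 2 * p' * g ≤ (p' + 1) * Q := by
  have h1 : 8 * p * g ≤ (4 * p + 4) * Q := by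
    calc 8 * p * g ≤ 8 * p * (B * ((4 * p ^ 2 + 3 * p) * M) + 8 * p ^ 2 * M) :=
          Nat.mul_le_mul_left _ hg
      _ = (4 * p + 3) * (B * (8 * p ^ 2 * M)) + 8 * p * (8 * p ^ 2 * M) := by ring
      _ ≤ (4 * p + 3) * Q + Q := Nat.add_le_add (Nat.mul_le_mul_left _ hB) hQ
      _ = (4 * p + 4) * Q := by ring
  have h2 : (4 * p) * (2 * p' * g) ≤ (4 * p) * ((p' + 1) * Q) := by
    calc (4 * p) * (2 * p' * g) = p' * (8 * p * g) := by ring
      _ ≤ p' * ((4 * p + 4) * Q) := Nat.mul_le_mul_left _ h1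
      _ = (4 * (p' * p) + 4 * p') * Q := by ring
      _ ≤ (4 * (p' * p) + 4 * p) * Q := Nat.mul_le_mul_right _ (by omega)
      _ = (4 * p) * ((p' + 1) * Q) := by ring
  exact Nat.le_of_mul_le_mul_left h2 (by omega)

/-- the number of the positions before `T` is at most the number in the full blocks, plus the length
of a block -/
lemma avg_full (f : ℕ → Bool) {T m : ℕ} (hm : 0 < m) :
    ((List.range T).filter fun j => f j).length ≤
      ((List.range (T / m * m)).filter fun j => f j).length + m := by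
  have h1 := Nat.div_add_mod T m
  have h2 := Nat.mod_lt T hm
  have h3 : T = T / m * m + T % m := by rw [Nat.mul_comm]; exact h1.symm
  have h4 : ((List.range T).filter fun j => f j) =
      ((List.range (T / m * m)).filter fun j => f j) ++
        (((List.range (T % m)).map fun i => T / m * m + i).filter fun j => f j) := by
    conv_lhs => rw [h3, List.range_add, List.filter_append]
  rw [h4, List.length_append]
  have h5 := List.length_filter_le (fun j => f j) ((List.range (T % m)).map fun i => T / m * m + i)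
  rw [List.length_map, List.length_range] at h5
  omega

lemma avg_fin {D κ n : ℕ} (hn : 3 ≤ n) :
    n ^ (D + 1) + 2 + bl D κ n ≤ n ^ (4 * κ + D + 5) := by
  unfold bl
  have h1 : (n + 1) ^ κ ≤ n ^ (2 * κ) := by
    rw [pow_mul]
    exact Nat.pow_le_pow_left (by nlinarith) κ
  have h2 : ((n + 1) ^ κ) ^ 2 ≤ n ^ (4 * κ) := by
    calc ((n + 1) ^ κ) ^ 2 ≤ (n ^ (2 * κ)) ^ 2 := Nat.pow_le_pow_left h1 2
      _ = n ^ (4 * κ) := by rw [← pow_mul]; congr 1; ring
  have h0 : 1 ≤ n ^ (D + 1) := Nat.one_le_pow _ _ (by omega)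
  have h3 : 2 * n ^ (D + 1) + 3 ≤ n ^ (D + 3) := by
    have h4 : n ^ (D + 3) = n ^ (D + 1) * (n * n) := by ring
    have h5 : n ^ (D + 1) * 9 ≤ n ^ (D + 1) * (n * n) := Nat.mul_le_mul_left _ (by nlinarith)
    omega
  have h4 : 8 * ((n + 1) ^ κ) ^ 2 * (2 * n ^ (D + 1) + 3) ≤ 8 * n ^ (4 * κ) * n ^ (D + 3) :=
    Nat.mul_le_mul (Nat.mul_le_mul_left _ h2) h3
  have h5 : 1 ≤ n ^ (4 * κ) := Nat.one_le_pow _ _ (by omega)
  have h6 : n ^ (D + 3) ≤ n ^ (4 * κ) * n ^ (D + 3) := Nat.le_mul_of_pos_left _ h5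
  have h7 : n ^ (4 * κ + D + 5) = n ^ (4 * κ) * n ^ (D + 3) * (n * n) := by ring
  have h8 : n ^ (4 * κ) * n ^ (D + 3) * 9 ≤ n ^ (4 * κ) * n ^ (D + 3) * (n * n) :=
    Nat.mul_le_mul_left _ (by nlinarith)
  have h9 : 8 * n ^ (4 * κ) * n ^ (D + 3) = n ^ (4 * κ) * n ^ (D + 3) * 8 := by ring
  omega

/-- ROW K7 (AvgC.lean). -/
theorem average (O : Set (List Bool)) (D κ : ℕ) : ∃ e : ℕ, ∀ A : Set (List Bool),
    InEAR O D A → ∃ n₀ : ℕ, ∀ n : ℕ, n₀ ≤ n →
      2 * n ^ κ * {x : List Bool | x.length = n ∧ (x ∈ A ↔ x ∈ LAV O D κ)}.ncard ≤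
        (n ^ κ + 1) * 2 ^ n ∧
      (A ⊆ LAV O D κ ∨ Disjoint A (LAV O D κ) →
        {x : List Bool | x ∈ A ∧ x.length = n}.ncard ≤ n ^ e) := by
  refine ⟨4 * κ + D + 5, fun A hA => ?_⟩
  obtain ⟨n₀, hn₀⟩ := avg_predictor O D hA
  obtain ⟨B, hB⟩ := eventually_poly_le
    (8 * (Polynomial.X + 1) ^ κ * (8 * ((Polynomial.X + 1) ^ κ) ^ 2 *
      (2 * Polynomial.X ^ (D + 1) + 3)))
  refine ⟨n₀ + B + 3, fun n hn => ?_⟩
  obtain ⟨a, haN, hT⟩ := hn₀ n (by omega)
  have h1 := hB n (by omega)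
  simp only [Polynomial.eval_add, Polynomial.eval_pow, Polynomial.eval_mul,
    Polynomial.eval_ofNat, Polynomial.eval_X, Polynomial.eval_one] at h1
  have hval : ∀ j < 2 ^ n, (valA O D κ n j = true ↔ str (2 ^ n - 1 + j) ∈ LAV O D κ) := by
    intro j hj
    rw [mem_LAV_iff, length_str_eq hj, vl_str, Nat.add_sub_cancel_left]
  have h5 : 2 ^ n / bl D κ n * bl D κ n ≤ 2 ^ n := Nat.div_mul_le_self _ _
  constructor
  · have h2 := imm_count {x | x ∈ A ↔ x ∈ LAV O D κ} n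
      (fun j => TI O D n a j == valA O D κ n j) (by
        intro j hj hjA
        rw [beq_iff_eq, Bool.eq_iff_iff, hT j hj, hval j hj]
        exact hjA)
    have h3 : {x : List Bool | x ∈ {x | x ∈ A ↔ x ∈ LAV O D κ} ∧ x.length = n} =
        {x : List Bool | x.length = n ∧ (x ∈ A ↔ x ∈ LAV O D κ)} := by
      ext x
      constructor
      · rintro ⟨h4, h5⟩
        exact ⟨h5, h4⟩
      · rintro ⟨h4, h5⟩
        exact ⟨h5, h4⟩
    rw [h3] at h2
    have h4 := block_count (T := 2 ^ n) (avg_bl_pos D κ n)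
      (fun j => TI O D n a j == valA O D κ n j) (avg_block O D κ n haN)
    exact avg_arith (Nat.one_le_pow _ _ (by omega)) (Nat.pow_le_pow_left (Nat.le_succ n) κ) h5 h1
      (h2.trans h4)
  · intro h
    -- a pair that is alive after the full blocks
    have key : ∀ σ : Bool, (∀ j < 2 ^ n, TI O D n a j = true → valA O D κ n j = σ) →
        ((List.range (2 ^ n)).filter fun j => TI O D n a j).length ≤
          n ^ (D + 1) + 2 + bl D κ n := by
      intro σ hσ
      have h6 := avg_full (TI O D n a) (T := 2 ^ n) (avg_bl_pos D κ n)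
      have h7 := alive_count (K := 2 ^ (n ^ (D + 1) + 3) - 1) (t := 2 ^ n / bl D κ n * bl D κ n)
        (imm_num1 _) haN (avg_wsum O D κ n _) (fun j hj => hσ j (hj.trans_le h5))
      have h8 := (Nat.pow_lt_pow_iff_right (by norm_num : 1 < 2)).1 (h7.trans_lt (imm_num2 _))
      omega
    refine (imm_count A n (TI O D n a) fun j hj hjA => (hT j hj).2 hjA).trans (le_trans ?_ (avg_fin (by omega)))
    rcases h with h | h
    · exact key true fun j hj hTj => (hval j hj).2 (h ((hT j hj).1 hTj))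
    · refine key false fun j hj hTj => ?_
      rw [Bool.eq_false_iff]
      intro hv
      exact Set.disjoint_left.1 h ((hT j hj).1 hTj) ((hval j hj).1 hv)

end Pool.Agent.FIM
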