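import Pool.Agent.FIM.Defs

/-!
The diagonal language with caps has the values without caps.
-/

set_option autoImplicit false
set_option linter.unusedSectionVars false

namespace Pool.Agent.FIM

open Lib.helper60 Function Turing Computability
open MP_92db0f_lc hiding answers InNEXP mkC length_mkC PT_mkC answers_take length_answers
open MP_92db0f_lc_alg (answers PolyTime InNEXP)
open MP_92db0f_lc_gold (OPT Meas VK dcert VK_spec OPT_VK gen length_gen)
open Pool.Agent.LCB

/-- The weights depend on the predictors with numbers below `N` at positions up to the length of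
the list only. -/
lemma wgt_congr {K N : ℕ} {T T' : ℕ → ℕ → Bool} {h : List Bool} (σ : Bool)
    (hT : ∀ a < N, ∀ j ≤ h.length, T a j = T' a j) : wgt K T N h σ = wgt K T' N h σ := by
  unfold wgt
  congr 1
  apply List.map_congr_left
  intro a ha
  rw [List.mem_range] at ha
  have h1 : (List.range h.length).all (fun j => !T a j || (h.getD j false == σ)) =
      (List.range h.length).all (fun j => !T' a j || (h.getD j false == σ)) := by
    rw [Bool.eq_iff_iff, List.all_eq_true, List.all_eq_true]
    constructor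
    · intro h2 j hj
      have h3 := h2 j hj
      rw [hT a ha j (List.mem_range.mp hj).le] at h3
      exact h3
    · intro h2 j hj
      have h3 := h2 j hj
      rw [← hT a ha j (List.mem_range.mp hj).le] at h3
      exact h3
  have h2 : (List.range h.length).filter (fun j => T a j) =
      (List.range h.length).filter (fun j => T' a j) := by
    apply List.filter_congr
    intro j hj
    exact hT a ha j (List.mem_range.mp hj).le
  rw [hT a ha h.length le_rfl, h1, h2]

lemma stp_congr {K N : ℕ} {T T' : ℕ → ℕ → Bool} {h : List Bool}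
    (hT : ∀ a < N, ∀ j ≤ h.length, T a j = T' a j) : stp K T N h = stp K T' N h := by
  unfold stp
  rw [wgt_congr true hT, wgt_congr false hT]

lemma powAdd_le (D n : ℕ) : n ^ (D + 1) + 1 + n ≤ EE (D + 1) n := by
  unfold EE
  have h1 : n ^ (D + 1) ≤ (n + 2) ^ (D + 1) := Nat.pow_le_pow_left (by omega) _
  have h2 : (n + 2) ^ (D + 1) * (n + 2) ≤ (n + 2) ^ (D + 1 + 2) := by
    rw [← pow_succ]
    exact Nat.pow_le_pow_right (by omega) (by omega)
  have h3 : 1 ≤ (n + 2) ^ (D + 1) := Nat.one_le_pow _ _ (by omega)
  have h4 : (n + 2) ^ (D + 1) + n ≤ (n + 2) ^ (D + 1) * (n + 2) := by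
    nlinarith
  omega

section

variable {O : Set (List Bool)} {D P : ℕ} {x : List Bool}
  (hP : 2 ^ EE (D + 1) x.length ≤ P + 1)

include hP in
lemma MM_eq : MM (x, P) = 2 ^ x.length := by
  unfold MM
  have h1 := self_le (D + 1) x.length
  have h2 : 0 < 2 ^ x.length := by positivity
  show p2 P x.length + 1 = 2 ^ x.length
  rw [p2_eq' (capR_le hP (by omega : x.length ≤ EE (D + 1) x.length))]
  omega

include hP in
lemma NN_eq : NN D (x, P) = 2 ^ (x.length ^ (D + 1) + 1) - 1 := by
  have h1 := pow1R_le D x.length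
  exact p2_eq' (capR_le hP (by omega : x.length ^ (D + 1) + 1 ≤ EE (D + 1) x.length))

include hP in
lemma KK_eq : KK D (x, P) = 2 ^ (x.length ^ (D + 1) + 3) - 1 := by
  have h1 := pow1R_le D x.length
  exact p2_eq' (capR_le hP (by omega : x.length ^ (D + 1) + 3 ≤ EE (D + 1) x.length))

include hP in
lemma tabB_eq {a j : ℕ} (hj : j < 2 ^ x.length) :
    tabB O D ((x, P), a * 2 ^ x.length + j) = TI O D x.length a j := by
  have hM : MM (x, P) = 2 ^ x.length := MM_eq hP
  have h2 : 0 < 2 ^ x.length := by positivity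
  have hd : (a * 2 ^ x.length + j) / 2 ^ x.length = a := by
    rw [mul_comm, Nat.mul_add_div h2, Nat.div_eq_of_lt hj, add_zero]
  have hm : (a * 2 ^ x.length + j) % 2 ^ x.length = j := by
    rw [mul_comm, Nat.mul_add_mod, Nat.mod_eq_of_lt hj]
  unfold tabB TI
  simp only [hM, hd, hm]
  exact mchB_eq hP _ _

include hP in
lemma stepB_eq {h : List Bool} (hh : h.length < 2 ^ x.length) :
    stepB O D ((x, P), h) = stp (2 ^ (x.length ^ (D + 1) + 3) - 1) (TI O D x.length)
      (2 ^ (x.length ^ (D + 1) + 1) - 1) h := by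
  have hM : MM (x, P) = 2 ^ x.length := MM_eq hP
  unfold stepB stepF
  simp only [hM, NN_eq hP, KK_eq hP]
  apply stp_congr
  intro a ha j hj
  have hj2 : j < 2 ^ x.length := by omega
  have h1 : a * 2 ^ x.length + j < P := by
    have h2 := capR_le hP (powAdd_le D x.length)
    have h3 : (a + 1) * 2 ^ x.length ≤ (2 ^ (x.length ^ (D + 1) + 1) - 1) * 2 ^ x.length :=
      Nat.mul_le_mul_right _ ha
    have h4 : (2 ^ (x.length ^ (D + 1) + 1) - 1) * 2 ^ x.length =
        2 ^ (x.length ^ (D + 1) + 1 + x.length) - 2 ^ x.length := by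
      rw [Nat.sub_mul, one_mul, ← pow_add]
    have h5 : (a + 1) * 2 ^ x.length = a * 2 ^ x.length + 2 ^ x.length := by ring
    have h6 : 1 ≤ 2 ^ x.length := Nat.one_le_two_pow
    have h7 : 2 ^ x.length ≤ 2 ^ (x.length ^ (D + 1) + 1 + x.length) :=
      Nat.pow_le_pow_right (by norm_num) (by omega)
    omega
  rw [List.getD_eq_getElem _ _ (by rw [List.length_map, List.length_range]; exact h1),
    List.getElem_map, List.getElem_range]
  exact tabB_eq hP hj2

include hP in
lemma gen_eq {t : ℕ} (ht : t ≤ 2 ^ x.length) :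
    gen (stepB O D) (x, P) t = hist (2 ^ (x.length ^ (D + 1) + 3) - 1) (TI O D x.length)
      (2 ^ (x.length ^ (D + 1) + 1) - 1) t := by
  induction t with
  | zero => rfl
  | succ t ih =>
    unfold hist
    rw [gen, gen, stepB_eq hP (by rw [length_gen]; omega), ih (by omega)]
    rfl

include hP in
lemma GB_eq : GB O D (x, P) = valI O D x.length (vl x - (2 ^ x.length - 1)) := by
  have h1 := self_le (D + 1) x.length
  have h2 := vl_lt x
  have h3 : 2 ^ (x.length + 1) ≤ P + 1 := capR_le hP (by omega)
  have h4 : 1 ≤ 2 ^ x.length := Nat.one_le_two_pow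
  have h5 : 2 ^ (x.length + 1) = 2 * 2 ^ x.length := by rw [pow_succ, mul_comm]
  have hlt : vl x - (2 ^ x.length - 1) < 2 ^ x.length := by omega
  have hidx : vlc P x - p2 P x.length = vl x - (2 ^ x.length - 1) := by
    rw [p2_eq' (capR_le hP (by omega : x.length ≤ EE (D + 1) x.length)), vlc_eq,
      min_eq_right (by omega)]
  unfold GB valI val
  simp only [hidx]
  rw [gen_eq hP hlt.le, stepB_eq hP]
  unfold hist
  rw [length_gen]
  exact hlt

end

theorem mem_LIM_iff (O : Set (List Bool)) (D : ℕ) (x : List Bool) :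
    x ∈ LIM O D ↔ valI O D x.length (vl x - (2 ^ x.length - 1)) = true := by
  have hcheck : ∀ y : List Bool, p2 (y.length + 1) (EE (D + 1) x.length) ≤
      y.length ↔ 2 ^ EE (D + 1) x.length ≤ y.length + 1 := by
    intro y
    rw [p2_eq]
    have : 0 < 2 ^ EE (D + 1) x.length := by positivity
    omega
  constructor
  · rintro ⟨y, _, hy⟩
    simp only [VB, Bool.and_eq_true, decide_eq_true_eq, hcheck] at hy
    rw [← GB_eq hy.1]
    exact hy.2
  · intro h
    refine ⟨List.replicate (2 ^ EE (D + 1) x.length) true, ?_, ?_⟩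
    · rw [List.length_replicate]
      exact Nat.pow_le_pow_right (by norm_num) (EE_le _ _)
    · simp only [VB, Bool.and_eq_true, decide_eq_true_eq]
      refine ⟨(hcheck _).mpr (by rw [List.length_replicate]; exact Nat.le_succ _), ?_⟩
      rw [GB_eq (by rw [List.length_replicate]; exact Nat.le_succ _), h]

end Pool.Agent.FIM
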