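import Pool.Agent.FIM.DefsC
import Pool.Agent.FIM.Caps

/-!
The diagonal language with caps has the values without caps.
-/

set_option autoImplicit false
set_option linter.unusedSectionVars false

namespace Pool.Agent.FIM

open Lib.helper60 Function Turing Computability
open MP_92db0f_lc hiding answers InNEXP mkC length_mkC PT_mkC answers_take length_answers
open MP_92db0f_lc_alg (answers PolyTime InNEXP)
open MP_92db0f_lc_gold (OPT Meas VK dcert VK_spec OPT_VK gen length_gen)
open Pool.Agent.LCB

/-! ### the values depend on a part of the table only -/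

lemma K2_wone_congr {K : ℕ} {T T' : ℕ → ℕ → Bool} {h : List Bool} {a : ℕ} (σ : Bool)
    (hT : ∀ j < h.length, T a j = T' a j) : wone K T h a σ = wone K T' h a σ := by
  unfold wone
  have h1 : (List.range h.length).all (fun j => !T a j || (h.getD j false == σ)) =
      (List.range h.length).all (fun j => !T' a j || (h.getD j false == σ)) := by
    rw [Bool.eq_iff_iff, List.all_eq_true, List.all_eq_true]
    constructor
    · intro h2 j hj
      have h3 := h2 j hj
      rw [hT j (List.mem_range.mp hj)] at h3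
      exact h3
    · intro h2 j hj
      have h3 := h2 j hj
      rw [← hT j (List.mem_range.mp hj)] at h3
      exact h3
  have h2 : (List.range h.length).filter (fun j => T a j) =
      (List.range h.length).filter (fun j => T' a j) := by
    apply List.filter_congr
    intro j hj
    exact hT j (List.mem_range.mp hj)
  rw [h1, h2]

lemma K2_wsum_congr {K N : ℕ} {T T' : ℕ → ℕ → Bool} {h : List Bool}
    (hT : ∀ a < N, ∀ j < h.length, T a j = T' a j) : wsum K T N h = wsum K T' N h := by
  unfold wsum
  congr 1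
  apply List.map_congr_left
  intro a ha
  rw [List.mem_range] at ha
  rw [K2_wone_congr true (hT a ha), K2_wone_congr false (hT a ha)]

lemma K2_good_congr {K N m θ : ℕ} {T T' : ℕ → ℕ → Bool} {h s : List Bool}
    (hT : ∀ a < N, ∀ j < h.length + m, T a j = T' a j) :
    good K T N m θ h s = good K T' N m θ h s := by
  unfold good
  by_cases hs : s.length = m
  · have h1 : wsum K T N (h ++ s) = wsum K T' N (h ++ s) :=
      K2_wsum_congr fun a ha j hj => hT a ha j (by rwa [List.length_append, hs] at hj)
    have h2 : wsum K T N h = wsum K T' N h :=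
      K2_wsum_congr fun a ha j hj => hT a ha j (by omega)
    have h3 : ((List.range N).all fun a => decide (((List.range m).filter fun i =>
        T a (h.length + i) == s.getD i false).length < θ)) =
        (List.range N).all fun a => decide (((List.range m).filter fun i =>
        T' a (h.length + i) == s.getD i false).length < θ) := by
      have h4 : ∀ a ∈ List.range N, ((List.range m).filter fun i =>
          T a (h.length + i) == s.getD i false) = (List.range m).filter fun i =>
          T' a (h.length + i) == s.getD i false := by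
        intro a ha
        apply List.filter_congr
        intro i hi
        rw [hT a (List.mem_range.mp ha) _ (by have := List.mem_range.mp hi; omega)]
      rw [Bool.eq_iff_iff, List.all_eq_true, List.all_eq_true]
      constructor
      · intro h5 a ha
        rw [← h4 a ha]
        exact h5 a ha
      · intro h5 a ha
        rw [h4 a ha]
        exact h5 a ha
    rw [h1, h2, h3]
  · have h1 : decide (s.length = m) = false := decide_eq_false hs
    rw [h1, Bool.false_and, Bool.false_and, Bool.false_and, Bool.false_and]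

lemma K2_stc_congr {K N m θ R : ℕ} {T T' : ℕ → ℕ → Bool} {h : List Bool}
    (hT : ∀ a < N, ∀ j < h.length + m, T a j = T' a j) :
    stc K T N m θ R h = stc K T' N m θ R h := by
  have h1 : (h.take (h.length / m * m)).length ≤ h.length := by
    rw [List.length_take]
    exact min_le_right _ _
  have h2 : ((List.range R).filter fun k =>
      good K T N m θ (h.take (h.length / m * m)) (str k)) =
      (List.range R).filter fun k =>
      good K T' N m θ (h.take (h.length / m * m)) (str k) := by
    apply List.filter_congr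
    intro k _
    exact K2_good_congr fun a ha j hj => hT a ha j (by omega)
  unfold stc pick
  rw [h2]

/-! ### arithmetic -/

lemma K2_exp_le (D κ n : ℕ) : n ^ (D + 1) + 1 + n + bl D κ n ≤ EE (EX D κ) n := by
  unfold bl EE EX
  have h1 : ((n + 1) ^ κ) ^ 2 ≤ (n + 2) ^ (2 * κ) := by
    rw [← pow_mul, mul_comm κ 2]
    exact Nat.pow_le_pow_left (by omega) _
  have h2 : n ^ (D + 1) + 2 ≤ (n + 2) ^ (D + 1) := by
    have h3 : n ^ D ≤ (n + 2) ^ D := Nat.pow_le_pow_left (by omega) _
    have h4 : 1 ≤ (n + 2) ^ D := Nat.one_le_pow _ _ (by omega)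
    rw [pow_succ, pow_succ, Nat.mul_add]
    have h5 : n ^ D * n ≤ (n + 2) ^ D * n := Nat.mul_le_mul_right _ h3
    omega
  have h3 : 8 ≤ (n + 2) ^ 3 := by
    have : (0 + 2) ^ 3 ≤ (n + 2) ^ 3 := Nat.pow_le_pow_left (by omega) _
    omega
  have h4 : 2 * (n + 2) ^ (D + 1) ≤ (n + 2) ^ (D + 2) := by
    rw [pow_succ _ (D + 1), mul_comm]
    exact Nat.mul_le_mul_left _ (by omega)
  have h5 : n + 2 ≤ (n + 2) ^ (D + 1) := Nat.le_self_pow (by omega) _
  have h6 : 8 * ((n + 1) ^ κ) ^ 2 * (2 * n ^ (D + 1) + 3) ≤
      (n + 2) ^ 3 * (n + 2) ^ (2 * κ) * (n + 2) ^ (D + 2) :=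
    Nat.mul_le_mul (Nat.mul_le_mul h3 h1) (by omega)
  have h7 : (n + 2) ^ 3 * (n + 2) ^ (2 * κ) * (n + 2) ^ (D + 2) =
      (n + 2) ^ (D + 2 * κ + 5) := by
    rw [← pow_add, ← pow_add]
    congr 1
    omega
  have h8 : (n + 2) ^ (D + 2) ≤ (n + 2) ^ (D + 2 * κ + 5) :=
    Nat.pow_le_pow_right (by omega) (by omega)
  have h9 : 2 * (n + 2) ^ (D + 2 * κ + 5) ≤ (n + 2) ^ (D + 2 * κ + 4 + 2) := by
    rw [show D + 2 * κ + 4 + 2 = D + 2 * κ + 5 + 1 by omega, pow_succ, mul_comm]
    exact Nat.mul_le_mul_left _ (by omega)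
  omega

lemma K2_EE_le (D κ n : ℕ) : EE (D + 1) n ≤ EE (EX D κ) n := by
  unfold EE EX
  have h1 : (n + 2) ^ (D + 1 + 2) ≤ (n + 2) ^ (D + 2 * κ + 4 + 2) :=
    Nat.pow_le_pow_right (by omega) (by omega)
  omega

section

variable {O : Set (List Bool)} {D κ P : ℕ} {x : List Bool}
  (hP : 2 ^ EE (EX D κ) x.length ≤ P + 1)

include hP in
lemma K2_cap {m : ℕ} (hm : m ≤ EE (EX D κ) x.length) : 2 ^ m ≤ P + 1 :=
  (Nat.pow_le_pow_right (by norm_num) hm).trans hP

include hP in
lemma K2_RR : RR D κ (x, P) = 2 ^ (bl D κ x.length + 1) - 1 := by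
  have h1 := K2_exp_le D κ x.length
  exact p2_eq' (K2_cap hP (by omega : bl D κ x.length + 1 ≤ EE (EX D κ) x.length))

include hP in
lemma K2_SS : SS D κ (x, P) = 2 ^ x.length * (bl D κ x.length + 1) := by
  have hM : MM (x, P) = 2 ^ x.length := MM_eq (K2_cap hP (K2_EE_le D κ x.length))
  unfold SS
  rw [hM]

include hP in
lemma K2_tab {a j : ℕ} (hj : j < 2 ^ x.length * (bl D κ x.length + 1)) :
    tabC O D κ ((x, P), a * (2 ^ x.length * (bl D κ x.length + 1)) + j) =
      TI O D x.length a j := by
  have h0 := K2_cap hP (K2_EE_le D κ x.length)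
  have hM : MM (x, P) = 2 ^ x.length := MM_eq h0
  have hS : SS D κ (x, P) = 2 ^ x.length * (bl D κ x.length + 1) := K2_SS hP
  obtain ⟨S, hS'⟩ : ∃ S, S = 2 ^ x.length * (bl D κ x.length + 1) := ⟨_, rfl⟩
  have h2 : 0 < S := by rw [hS']; positivity
  rw [← hS'] at hj hS ⊢
  have hd : (a * S + j) / S = a := by
    rw [mul_comm, Nat.mul_add_div h2, Nat.div_eq_of_lt hj, add_zero]
  have hm : (a * S + j) % S = j := by
    rw [mul_comm, Nat.mul_add_mod, Nat.mod_eq_of_lt hj]
  unfold tabC TI
  simp only [hS, hM, hd, hm]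
  exact mchB_eq h0 _ _

include hP in
lemma K2_step {h : List Bool} (hh : h.length < 2 ^ x.length) :
    stepC O D κ ((x, P), h) = stc (2 ^ (x.length ^ (D + 1) + 3) - 1) (TI O D x.length)
      (2 ^ (x.length ^ (D + 1) + 1) - 1) (bl D κ x.length) (th D κ x.length)
      (2 ^ (bl D κ x.length + 1) - 1) h := by
  have h0 := K2_cap hP (K2_EE_le D κ x.length)
  have hS : SS D κ (x, P) = 2 ^ x.length * (bl D κ x.length + 1) := K2_SS hP
  have hR : RR D κ (x, P) = 2 ^ (bl D κ x.length + 1) - 1 := K2_RR hP
  unfold stepC stepCF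
  simp only [hS, hR, NN_eq h0, KK_eq h0]
  apply K2_stc_congr
  intro a ha j hj
  have hpos : 1 ≤ 2 ^ x.length := Nat.one_le_two_pow
  have e1 : 2 ^ x.length * (bl D κ x.length + 1) =
      2 ^ x.length * bl D κ x.length + 2 ^ x.length := by ring
  have e2 : bl D κ x.length ≤ 2 ^ x.length * bl D κ x.length :=
    Nat.le_mul_of_pos_left _ hpos
  have hj2 : j < 2 ^ x.length * (bl D κ x.length + 1) := by omega
  have h1 : a * (2 ^ x.length * (bl D κ x.length + 1)) + j < P := by
    have h2 := K2_cap hP (K2_exp_le D κ x.length)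
    have h3 : (a + 1) * (2 ^ x.length * (bl D κ x.length + 1)) ≤
        (2 ^ (x.length ^ (D + 1) + 1) - 1) * (2 ^ x.length * (bl D κ x.length + 1)) :=
      Nat.mul_le_mul_right _ ha
    have h4 : 2 ^ x.length * (bl D κ x.length + 1) ≤ 2 ^ x.length * 2 ^ bl D κ x.length :=
      Nat.mul_le_mul_left _ Nat.lt_two_pow_self
    have h5 : (2 ^ (x.length ^ (D + 1) + 1) - 1) * (2 ^ x.length * (bl D κ x.length + 1)) ≤
        (2 ^ (x.length ^ (D + 1) + 1) - 1) * (2 ^ x.length * 2 ^ bl D κ x.length) :=
      Nat.mul_le_mul_left _ h4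
    have h6 : (2 ^ (x.length ^ (D + 1) + 1) - 1) * (2 ^ x.length * 2 ^ bl D κ x.length) =
        2 ^ (x.length ^ (D + 1) + 1 + x.length + bl D κ x.length) -
          2 ^ x.length * 2 ^ bl D κ x.length := by
      rw [Nat.sub_mul, one_mul]
      congr 1
      rw [← pow_add, ← pow_add]
      congr 1
      omega
    have h7 : (a + 1) * (2 ^ x.length * (bl D κ x.length + 1)) =
        a * (2 ^ x.length * (bl D κ x.length + 1)) +
          2 ^ x.length * (bl D κ x.length + 1) := by ring
    have h8 : 1 ≤ 2 ^ x.length * 2 ^ bl D κ x.length := by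
      have : 0 < 2 ^ x.length * 2 ^ bl D κ x.length := by positivity
      omega
    omega
  rw [List.getD_eq_getElem _ _ (by rw [List.length_map, List.length_range]; exact h1),
    List.getElem_map, List.getElem_range]
  exact K2_tab hP hj2

include hP in
lemma K2_gen {t : ℕ} (ht : t ≤ 2 ^ x.length) :
    gen (stepC O D κ) (x, P) t = hic (2 ^ (x.length ^ (D + 1) + 3) - 1) (TI O D x.length)
      (2 ^ (x.length ^ (D + 1) + 1) - 1) (bl D κ x.length) (th D κ x.length)
      (2 ^ (bl D κ x.length + 1) - 1) t := by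
  induction t with
  | zero => rfl
  | succ t ih =>
    unfold hic
    rw [gen, gen, K2_step hP (by rw [length_gen]; omega), ih (by omega)]
    rfl

include hP in
lemma K2_GC : GC O D κ (x, P) = valA O D κ x.length (vl x - (2 ^ x.length - 1)) := by
  have h0 := K2_cap hP (K2_EE_le D κ x.length)
  have h1 := self_le (D + 1) x.length
  have h2 := vl_lt x
  have h3 : 2 ^ (x.length + 1) ≤ P + 1 := capR_le h0 (by omega)
  have h4 : 1 ≤ 2 ^ x.length := Nat.one_le_two_pow
  have h5 : 2 ^ (x.length + 1) = 2 * 2 ^ x.length := by rw [pow_succ, mul_comm]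
  have hlt : vl x - (2 ^ x.length - 1) < 2 ^ x.length := by omega
  have hidx : vlc P x - p2 P x.length = vl x - (2 ^ x.length - 1) := by
    rw [p2_eq' (capR_le h0 (by omega : x.length ≤ EE (D + 1) x.length)), vlc_eq,
      min_eq_right (by omega)]
  unfold GC valA vac
  simp only [hidx]
  rw [K2_gen hP hlt.le, K2_step hP]
  unfold hic
  rw [length_gen]
  exact hlt

end

/-- ROW K2 (CapsC.lean). -/
theorem mem_LAV_iff (O : Set (List Bool)) (D κ : ℕ) (x : List Bool) :
    x ∈ LAV O D κ ↔ valA O D κ x.length (vl x - (2 ^ x.length - 1)) = true := by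
  have hcheck : ∀ y : List Bool, p2 (y.length + 1) (EE (EX D κ) x.length) ≤
      y.length ↔ 2 ^ EE (EX D κ) x.length ≤ y.length + 1 := by
    intro y
    rw [p2_eq]
    have : 0 < 2 ^ EE (EX D κ) x.length := by positivity
    omega
  constructor
  · rintro ⟨y, _, hy⟩
    simp only [VC, Bool.and_eq_true, decide_eq_true_eq, hcheck] at hy
    rw [← K2_GC hy.1]
    exact hy.2
  · intro h
    refine ⟨List.replicate (2 ^ EE (EX D κ) x.length) true, ?_, ?_⟩
    · rw [List.length_replicate]
      exact Nat.pow_le_pow_right (by norm_num) (EE_le _ _)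
    · simp only [VC, Bool.and_eq_true, decide_eq_true_eq]
      refine ⟨(hcheck _).mpr (by rw [List.length_replicate]; exact Nat.le_succ _), ?_⟩
      rw [K2_GC (by rw [List.length_replicate]; exact Nat.le_succ _), h]

end Pool.Agent.FIM
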