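import Mathlib

/-!
Few strings agree with a given one on many positions (exponential moments).
-/

set_option autoImplicit false

namespace Pool.Agent.FIM

theorem chern_key {p : ℕ} (hp : 1 ≤ p) : (2 : ℝ) * (2 * (p : ℝ)) ^ (8 * p ^ 2) ≤
    (2 * (p : ℝ) + 1) ^ (4 * p ^ 2 + 3 * p) * (2 * (p : ℝ) - 1) ^ (4 * p ^ 2 - 3 * p) := by
  have hp1 : (1 : ℝ) ≤ p := by exact_mod_cast hp
  obtain ⟨Q, hQ⟩ : ∃ Q : ℝ, Q = 2 * (p : ℝ) := ⟨_, rfl⟩
  have hQ2 : 2 ≤ Q := by rw [hQ]; linarith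
  rw [← hQ]
  have hsub : 3 * p ≤ 4 * p ^ 2 := by nlinarith
  -- the second factor
  have hB : 2 * (Q - 1) ^ p ≤ (Q + 1) ^ p := by
    have h1 := one_add_mul_le_pow (a := 2 / (Q - 1)) (by
      have : 0 ≤ 2 / (Q - 1) := div_nonneg (by norm_num) (by linarith)
      linarith) p
    have h2 : (2 : ℝ) ≤ 1 + p * (2 / (Q - 1)) := by
      have h3 : 1 ≤ (p : ℝ) * (2 / (Q - 1)) := by
        rw [← mul_div_assoc, le_div_iff₀ (by linarith)]
        rw [hQ]
        linarith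
      linarith
    have h4 : (1 + 2 / (Q - 1)) ^ p * (Q - 1) ^ p = (Q + 1) ^ p := by
      rw [← mul_pow]
      congr 1
      have : Q - 1 ≠ 0 := by linarith
      field_simp
      ring
    calc 2 * (Q - 1) ^ p ≤ (1 + 2 / (Q - 1)) ^ p * (Q - 1) ^ p :=
          mul_le_mul_of_nonneg_right (h2.trans h1) (pow_nonneg (by linarith) _)
      _ = _ := h4
  have hB3 : 8 * (Q - 1) ^ (3 * p) ≤ (Q + 1) ^ (3 * p) := by
    have h1 : (2 * (Q - 1) ^ p) ^ 3 ≤ ((Q + 1) ^ p) ^ 3 :=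
      pow_le_pow_left₀ (mul_nonneg (by norm_num) (pow_nonneg (by linarith) _)) hB 3
    rw [mul_pow, ← pow_mul, ← pow_mul, mul_comm p 3] at h1
    linarith
  -- the first factor
  have hA : (1 / 2) * (Q ^ 2) ^ (2 * p ^ 2) ≤ (Q ^ 2 - 1) ^ (2 * p ^ 2) := by
    have hQ0 : (0 : ℝ) < Q ^ 2 := by positivity
    have h1 := one_add_mul_le_pow (a := -(1 / Q ^ 2)) (by
      have : 1 / Q ^ 2 ≤ 1 := by
        rw [div_le_one hQ0]
        nlinarith
      linarith) (2 * p ^ 2)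
    have h2 : 1 + ((2 * p ^ 2 : ℕ) : ℝ) * -(1 / Q ^ 2) = 1 / 2 := by
      rw [hQ]
      push_cast
      field_simp
      ring
    rw [h2] at h1
    calc (1 / 2) * (Q ^ 2) ^ (2 * p ^ 2) ≤ (1 + -(1 / Q ^ 2)) ^ (2 * p ^ 2) * (Q ^ 2) ^ (2 * p ^ 2) :=
          mul_le_mul_of_nonneg_right h1 (by positivity)
      _ = _ := by
        rw [← mul_pow]
        congr 1
        field_simp
        ring
  have hA2 : (1 / 4) * Q ^ (8 * p ^ 2) ≤ (Q ^ 2 - 1) ^ (4 * p ^ 2) := by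
    have h1 : ((1 / 2) * (Q ^ 2) ^ (2 * p ^ 2)) ^ 2 ≤ ((Q ^ 2 - 1) ^ (2 * p ^ 2)) ^ 2 :=
      pow_le_pow_left₀ (by positivity) hA 2
    rw [mul_pow, ← pow_mul, ← pow_mul, ← pow_mul] at h1
    have e1 : 2 * (2 * p ^ 2 * 2) = 8 * p ^ 2 := by ring
    have e2 : 2 * p ^ 2 * 2 = 4 * p ^ 2 := by ring
    rw [e2] at h1
    rw [show 2 * (4 * p ^ 2) = 8 * p ^ 2 by ring] at h1
    linarith
  -- together
  have hpos : 0 < (Q - 1) ^ (3 * p) := pow_pos (by linarith) _
  refine le_of_mul_le_mul_right ?_ hpos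
  have h5 : (Q + 1) ^ (4 * p ^ 2 + 3 * p) * (Q - 1) ^ (4 * p ^ 2 - 3 * p) * (Q - 1) ^ (3 * p) =
      (Q ^ 2 - 1) ^ (4 * p ^ 2) * (Q + 1) ^ (3 * p) := by
    rw [mul_assoc, ← pow_add, Nat.sub_add_cancel hsub, pow_add]
    have : (Q ^ 2 - 1) ^ (4 * p ^ 2) = (Q + 1) ^ (4 * p ^ 2) * (Q - 1) ^ (4 * p ^ 2) := by
      rw [← mul_pow]
      congr 1
      ring
    rw [this]
    ring
  rw [h5]
  calc 2 * Q ^ (8 * p ^ 2) * (Q - 1) ^ (3 * p)
      = ((1 / 4) * Q ^ (8 * p ^ 2)) * (8 * (Q - 1) ^ (3 * p)) := by ring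
    _ ≤ _ := mul_le_mul hA2 hB3 (mul_nonneg (by norm_num) hpos.le)
        (pow_nonneg (by nlinarith) _)

/-- The moment of the number of agreements. -/
theorem chern_moment {m : ℕ} (Q : ℝ) (t : Fin m → Bool) :
    ∑ v : Fin m → Bool, (Q + 1) ^ (Finset.univ.filter fun i => t i = v i).card *
      (Q - 1) ^ (m - (Finset.univ.filter fun i => t i = v i).card) = (2 * Q) ^ m := by
  have h1 : ∀ v : Fin m → Bool, (Q + 1) ^ (Finset.univ.filter fun i => t i = v i).card *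
      (Q - 1) ^ (m - (Finset.univ.filter fun i => t i = v i).card) =
      ∏ i, if t i = v i then Q + 1 else Q - 1 := by
    intro v
    rw [Finset.prod_ite, Finset.prod_const, Finset.prod_const]
    congr 2
    have h2 := Finset.card_filter_add_card_filter_not (s := (Finset.univ : Finset (Fin m)))
      (fun i => t i = v i)
    rw [Finset.card_univ, Fintype.card_fin] at h2
    omega
  simp only [h1]
  have h3 := (Finset.prod_univ_sum (fun _ : Fin m => (Finset.univ : Finset Bool))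
    (fun i b => if t i = b then Q + 1 else Q - 1)).symm
  rw [Fintype.piFinset_univ] at h3
  rw [h3]
  have h4 : ∀ i : Fin m, (∑ b : Bool, if t i = b then Q + 1 else Q - 1) = 2 * Q := by
    intro i
    rw [Fintype.sum_bool]
    rcases t i with _ | _ <;> simp <;> ring
  simp only [h4, Finset.prod_const, Finset.card_univ, Fintype.card_fin]

/-- Few strings agree with `t` on many positions. -/
theorem chern_bad {p M m θ : ℕ} (hp : 1 ≤ p) (hm : m = 8 * p ^ 2 * M)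
    (hθ : θ = (4 * p ^ 2 + 3 * p) * M) (t : Fin m → Bool) :
    (Finset.univ.filter fun v : Fin m → Bool =>
      θ ≤ (Finset.univ.filter fun i => t i = v i).card).card * 2 ^ M ≤ 2 ^ m := by
  obtain ⟨Q, hQ⟩ : ∃ Q : ℝ, Q = 2 * (p : ℝ) := ⟨_, rfl⟩
  have hp1 : (1 : ℝ) ≤ p := by exact_mod_cast hp
  have hQ2 : 2 ≤ Q := by rw [hQ]; linarith
  have hsub : 3 * p ≤ 4 * p ^ 2 := by nlinarith
  have hθm : θ + (4 * p ^ 2 - 3 * p) * M = m := by
    rw [hθ, hm, ← add_mul]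
    congr 1
    omega
  have hK : 2 ^ M * Q ^ m ≤ (Q + 1) ^ θ * (Q - 1) ^ (m - θ) := by
    have h1 := chern_key hp
    rw [← hQ] at h1
    have h2 := pow_le_pow_left₀ (by positivity) h1 M
    rw [mul_pow, mul_pow, ← pow_mul, ← pow_mul, ← pow_mul] at h2
    have h3 : m - θ = (4 * p ^ 2 - 3 * p) * M := by omega
    rw [h3, hm, hθ]
    exact h2
  have hQ1 : 0 < Q - 1 := by linarith
  have hQ1' : 0 < Q + 1 := by linarith
  -- every bad string has large weight
  have hw : ∀ v ∈ (Finset.univ.filter fun v : Fin m → Bool =>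
      θ ≤ (Finset.univ.filter fun i => t i = v i).card),
      2 ^ M * Q ^ m ≤ (Q + 1) ^ (Finset.univ.filter fun i => t i = v i).card *
      (Q - 1) ^ (m - (Finset.univ.filter fun i => t i = v i).card) := by
    intro v hv
    rw [Finset.mem_filter] at hv
    obtain ⟨d, hd⟩ := Nat.exists_eq_add_of_le hv.2
    have hr : (Finset.univ.filter fun i => t i = v i).card ≤ m := by
      have := Finset.card_le_univ (Finset.univ.filter fun i => t i = v i)
      rwa [Fintype.card_fin] at this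
    rw [hd] at hr ⊢
    refine hK.trans ?_
    have e : m - θ = (m - (θ + d)) + d := by omega
    rw [e, pow_add (Q - 1), pow_add (Q + 1)]
    have h4 : (Q - 1) ^ d ≤ (Q + 1) ^ d := pow_le_pow_left₀ hQ1.le (by linarith) d
    have h5 : 0 ≤ (Q + 1) ^ θ * (Q - 1) ^ (m - (θ + d)) :=
      mul_nonneg (pow_nonneg hQ1'.le _) (pow_nonneg hQ1.le _)
    calc (Q + 1) ^ θ * ((Q - 1) ^ (m - (θ + d)) * (Q - 1) ^ d)
        = (Q + 1) ^ θ * (Q - 1) ^ (m - (θ + d)) * (Q - 1) ^ d := by ring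
      _ ≤ (Q + 1) ^ θ * (Q - 1) ^ (m - (θ + d)) * (Q + 1) ^ d := mul_le_mul_of_nonneg_left h4 h5
      _ = _ := by ring
  have hsum : ((Finset.univ.filter fun v : Fin m → Bool =>
      θ ≤ (Finset.univ.filter fun i => t i = v i).card).card : ℝ) * (2 ^ M * Q ^ m) ≤
      (2 * Q) ^ m := by
    rw [← chern_moment Q t, ← nsmul_eq_mul]
    refine (Finset.card_nsmul_le_sum _ _ _ hw).trans ?_
    refine Finset.sum_le_sum_of_subset_of_nonneg (Finset.filter_subset _ _) fun v _ _ => ?_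
    exact mul_nonneg (pow_nonneg hQ1'.le _) (pow_nonneg hQ1.le _)
  have hQm : 0 < Q ^ m := pow_pos (by linarith) m
  have hfin : ((Finset.univ.filter fun v : Fin m → Bool =>
      θ ≤ (Finset.univ.filter fun i => t i = v i).card).card : ℝ) * 2 ^ M ≤ 2 ^ m := by
    refine le_of_mul_le_mul_right ?_ hQm
    rw [mul_assoc, ← mul_pow]
    exact hsum
  exact_mod_cast hfin

/-- Few strings agree with `f` on many positions. -/
theorem bad_count {p M : ℕ} (hp : 1 ≤ p) (f : ℕ → Bool) :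
    (Finset.univ.filter fun s : Fin (8 * p ^ 2 * M) → Bool =>
      (4 * p ^ 2 + 3 * p) * M ≤
        (Finset.univ.filter fun i : Fin (8 * p ^ 2 * M) => f i = s i).card).card * 2 ^ M ≤
      2 ^ (8 * p ^ 2 * M) :=
  chern_bad hp rfl rfl fun i => f i

end Pool.Agent.FIM
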