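import Pool.Agent.FIM.Defs
import Pool.Agent.FIM.Arith

/-!
The diagonal language is in nondeterministic exponential time.
-/

set_option autoImplicit false
set_option linter.unusedSectionVars false

namespace Pool.Agent.FIM

open Lib.helper60 Function Turing Computability
open MP_92db0f_lc hiding answers InNEXP mkC length_mkC PT_mkC answers_take length_answers
open MP_92db0f_lc_alg (answers PolyTime InNEXP)
open MP_92db0f_lc_gold (OPT Meas VK dcert VK_spec OPT_VK gen length_gen)
open Pool.Agent.LCB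

variable {α : Type} [DEnc α] {O : Set (List Bool)}

lemma PT_MM : PT MM := by
  unfold MM
  exact PT.nadd (PT_p2 PT.snd (PT.length PT.fst)) (PT.const 1)

lemma PT_NN (D : ℕ) : PT (NN D) := by
  unfold NN
  exact PT_p2 PT.snd (PT.nadd (PT_npow (PT.length PT.fst) _) (PT.const 1))

lemma PT_KK (D : ℕ) : PT (KK D) := by
  unfold KK
  exact PT_p2 PT.snd (PT.nadd (PT_npow (PT.length PT.fst) _) (PT.const 3))

lemma OPT_tabB (D : ℕ) : OPT O (tabB O D) := by
  unfold tabB
  have hM : PT (fun w : (List Bool × ℕ) × ℕ => MM w.1) := PT_MM.comp PT.fst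
  have hu : PT (fun w : (List Bool × ℕ) × ℕ => unpair (str (w.2 / MM w.1))) :=
    PT_unpair.comp (PT_str (PTx_ndiv PT.snd hM))
  exact OPT_mchB D hu.p1 PT.fst.p2 (PT.length PT.fst.p1)
    (PT_str (PT.nadd (PT.nsub hM (PT.const 1)) (PTx_nmod PT.snd hM))) hu.p2

/-- the weight, from the bits of the table -/
lemma PT_wgt {K M N : α → ℕ} {B h : α → List Bool} {σ : α → Bool} (hK : PT K) (hM : PT M)
    (hN : PT N) (hB : PT B) (hh : PT h) (hσ : PT σ) :
    PT (fun x => wgt (K x) (fun a j => (B x).getD (a * M x + j) false) (N x) (h x) (σ x)) := by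
  unfold wgt
  refine PTx_nsum (PT.map (PT.range hN) (g := fun y : α × ℕ =>
    bif (B y.1).getD (y.2 * M y.1 + (h y.1).length) false &&
    (List.range (h y.1).length).all (fun j => !(B y.1).getD (y.2 * M y.1 + j) false ||
      ((h y.1).getD j false == σ y.1)) then
      p2 (K y.1) ((List.range (h y.1).length).filter fun j =>
        (B y.1).getD (y.2 * M y.1 + j) false).length + 1 else 0) ?_)
  have b1 : PT (fun y : α × ℕ => B y.1) := hB.comp PT.fst
  have b2 : PT (fun y : α × ℕ => y.2 * M y.1) := PT.nmul PT.snd (hM.comp PT.fst)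
  have b3 : PT (fun y : α × ℕ => h y.1) := hh.comp PT.fst
  have b4 : PT (fun y : α × ℕ => K y.1) := hK.comp PT.fst
  have b5 : PT (fun y : α × ℕ => σ y.1) := hσ.comp PT.fst
  have c1 : PT (fun y : (α × ℕ) × ℕ => (B y.1.1).getD (y.1.2 * M y.1.1 + y.2) false) :=
    PT.getD (b1.comp PT.fst) (PT.nadd (b2.comp PT.fst) PT.snd) (PT.const false)
  have c2 : PT (fun y : (α × ℕ) × ℕ => ((h y.1.1).getD y.2 false == σ y.1.1)) :=
    PT.beq (PT.getD (b3.comp PT.fst) PT.snd (PT.const false)) (b5.comp PT.fst)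
  refine PT.cond (PT.band (PT.getD b1 (PT.nadd b2 (PT.length b3)) (PT.const false)) ?_)
    (PT.nadd (PT_p2 b4 (PT.length ?_)) (PT.const 1)) (PT.const 0)
  · exact PT.all (p := fun y : (α × ℕ) × ℕ => !(B y.1.1).getD (y.1.2 * M y.1.1 + y.2) false ||
      ((h y.1.1).getD y.2 false == σ y.1.1)) (PT.range (PT.length b3)) (PT.bor (PT.bnot c1) c2)
  · exact PT.filter (p := fun y : (α × ℕ) × ℕ => (B y.1.1).getD (y.1.2 * M y.1.1 + y.2) false)
      (PT.range (PT.length b3)) c1

lemma PT_stepF (D : ℕ) : PT (stepF D) := by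
  unfold stepF stp
  have z1 : PT (fun z : ((List Bool × ℕ) × List Bool) × List Bool => z.1.1) := PT.fst.p1
  have k : PT (fun z : ((List Bool × ℕ) × List Bool) × List Bool => KK D z.1.1) :=
    (PT_KK D).comp z1
  have m : PT (fun z : ((List Bool × ℕ) × List Bool) × List Bool => MM z.1.1) :=
    PT_MM.comp z1
  have n : PT (fun z : ((List Bool × ℕ) × List Bool) × List Bool => NN D z.1.1) :=
    (PT_NN D).comp z1
  exact PT.nlt (PT_wgt k m n PT.snd PT.fst.p2 (PT.const true))
    (PT_wgt k m n PT.snd PT.fst.p2 (PT.const false))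

lemma OPT_stepB (D : ℕ) : OPT O (stepB O D) := by
  unfold stepB
  have h1 : OPT O (fun y : ((List Bool × ℕ) × List Bool) × ℕ => tabB O D (y.1.1, y.2)) :=
    (OPT_tabB D).comp_PT (PT.pair PT.fst.p1 PT.snd)
  have h2 := MP_92db0f_lc_gold.OPT.bits (p := fun y : ((List Bool × ℕ) × List Bool) × ℕ =>
    tabB O D (y.1.1, y.2)) h1 (n := fun w : (List Bool × ℕ) × List Bool => w.1.2) PT.fst.p2
  exact ((OPT.of_PT PT.id).pair h2).map (h := stepF D) (PT_stepF D)

lemma gen_getD {β : Type} (s : β × List Bool → Bool) (a : β) (t : ℕ) :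
    (gen s a (t + 1)).getD t false = s (a, gen s a t) := by
  have h : (gen s a t).length = t := length_gen s a t
  rw [gen, List.getD_eq_getElem _ _ (by rw [List.length_append, h]; simp)]
  simp [h]

lemma OPT_GB (D : ℕ) : OPT O (GB O D) := by
  have ht : PT (fun w : List Bool × ℕ => vlc w.2 w.1 - p2 w.2 w.1.length) :=
    PT.nsub (PT_vlc PT.snd PT.fst) (PT_p2 PT.snd (PT.length PT.fst))
  have h1 := (MP_92db0f_lc_gold.OPT.gen (OPT_stepB (O := O) D)).comp_PT
    (h := fun w : List Bool × ℕ => (w, vlc w.2 w.1 - p2 w.2 w.1.length + 1))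
    (PT.pair PT.id (PT.nsucc ht))
  have h2 := ((OPT.of_PT (O := O) ht).pair h1).map
    (h := fun p : ℕ × List Bool => p.2.getD p.1 false) (PT.getD PT.snd PT.fst (PT.const false))
  exact h2.congr fun w => gen_getD _ _ _

lemma OPT_VB (D : ℕ) : OPT O (VB O D) := by
  unfold VB EE
  have hn : PT (fun p : List Bool × List Bool => p.1.length) := PT.length PT.fst
  have hl : PT (fun p : List Bool × List Bool => p.2.length) := PT.length PT.snd
  exact (OPT.of_PT (PT.nle (PT_p2 (PT.nsucc hl) (PT.nadd (PT_npow (PT.nadd hn (PT.const 2)) _)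
    (PT.const 3))) hl)).band ((OPT_GB D).comp_PT (PT.pair PT.fst hl))

theorem LIM_mem (O : Set (List Bool)) (D : ℕ) : InNEXP O (LIM O D) :=
  ⟨3 ^ (D + 1 + 2) + 2 * (D + 1) + 7, fun p => VB O D p = true,
    MP_92db0f_lc_gold.OPT.polyTime (OPT_VB D), fun _ => Iff.rfl⟩

end Pool.Agent.FIM
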