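import Pool.Agent.FIM.DefsC
import Pool.Agent.FIM.Comp

/-!
The diagonal language is in nondeterministic exponential time.
-/

set_option autoImplicit false
set_option linter.unusedSectionVars false

namespace Pool.Agent.FIM

open Lib.helper60 Function Turing Computability
open MP_92db0f_lc hiding answers InNEXP mkC length_mkC PT_mkC answers_take length_answers
open MP_92db0f_lc_alg (answers PolyTime InNEXP)
open MP_92db0f_lc_gold (OPT Meas VK dcert VK_spec OPT_VK gen length_gen)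
open Pool.Agent.LCB

variable {α : Type} [DEnc α] {O : Set (List Bool)}

lemma PT_wone {K S : α → ℕ} {B h : α → List Bool} {a : α → ℕ} {σ : α → Bool} (hK : PT K)
    (hS : PT S) (hB : PT B) (hh : PT h) (ha : PT a) (hσ : PT σ) :
    PT (fun x => wone (K x) (fun a j => (B x).getD (a * S x + j) false) (h x) (a x) (σ x)) := by
  unfold wone
  have b2 : PT (fun y : α => a y * S y) := PT.nmul ha hS
  have c1 : PT (fun y : α × ℕ => (B y.1).getD (a y.1 * S y.1 + y.2) false) :=
    PT.getD (hB.comp PT.fst) (PT.nadd (b2.comp PT.fst) PT.snd) (PT.const false)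
  have c2 : PT (fun y : α × ℕ => ((h y.1).getD y.2 false == σ y.1)) :=
    PT.beq (PT.getD (hh.comp PT.fst) PT.snd (PT.const false)) (hσ.comp PT.fst)
  refine PT.cond ?_ (PT.nadd (PT_p2 hK (PT.length ?_)) (PT.const 1)) (PT.const 0)
  · exact PT.all (p := fun y : α × ℕ => !(B y.1).getD (a y.1 * S y.1 + y.2) false ||
      ((h y.1).getD y.2 false == σ y.1)) (PT.range (PT.length hh)) (PT.bor (PT.bnot c1) c2)
  · exact PT.filter (p := fun y : α × ℕ => (B y.1).getD (a y.1 * S y.1 + y.2) false)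
      (PT.range (PT.length hh)) c1

lemma PT_wsum {K S N : α → ℕ} {B h : α → List Bool} (hK : PT K) (hS : PT S) (hN : PT N)
    (hB : PT B) (hh : PT h) :
    PT (fun x => wsum (K x) (fun a j => (B x).getD (a * S x + j) false) (N x) (h x)) := by
  unfold wsum
  exact PTx_nsum (PT.map (PT.range hN) (g := fun y : α × ℕ =>
    wone (K y.1) (fun a j => (B y.1).getD (a * S y.1 + j) false) (h y.1) y.2 true +
    wone (K y.1) (fun a j => (B y.1).getD (a * S y.1 + j) false) (h y.1) y.2 false)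
    (PT.nadd (PT_wone (hK.comp PT.fst) (hS.comp PT.fst) (hB.comp PT.fst) (hh.comp PT.fst) PT.snd
      (PT.const true)) (PT_wone (hK.comp PT.fst) (hS.comp PT.fst) (hB.comp PT.fst)
        (hh.comp PT.fst) PT.snd (PT.const false))))

lemma PT_good {K S N m θ : α → ℕ} {B h s : α → List Bool} (hK : PT K) (hS : PT S) (hN : PT N)
    (hm : PT m) (hθ : PT θ) (hB : PT B) (hh : PT h) (hs : PT s) :
    PT (fun x => good (K x) (fun a j => (B x).getD (a * S x + j) false) (N x) (m x) (θ x) (h x)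
      (s x)) := by
  unfold good
  refine PT.band (PT.band (PT.neq (PT.length hs) hm) (PT.nle
    (PT_wsum hK hS hN hB (PT.append hh hs)) (PT_wsum hK hS hN hB hh))) ?_
  refine PT.all (p := fun y : α × ℕ => decide (((List.range (m y.1)).filter fun i =>
    (B y.1).getD (y.2 * S y.1 + ((h y.1).length + i)) false == (s y.1).getD i false).length <
      θ y.1)) (PT.range hN) (PT.nlt (PT.length ?_) (hθ.comp PT.fst))
  exact PT.filter (p := fun u : (α × ℕ) × ℕ => (B u.1.1).getD (u.1.2 * S u.1.1 +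
    ((h u.1.1).length + u.2)) false == (s u.1.1).getD u.2 false) (PT.range (hm.comp PT.fst))
    (PT.beq (PT.getD (hB.comp (PT.fst.comp PT.fst)) (PT.nadd (PT.nmul (PT.snd.comp PT.fst)
      (hS.comp (PT.fst.comp PT.fst))) (PT.nadd (PT.length (hh.comp (PT.fst.comp PT.fst))) PT.snd))
        (PT.const false)) (PT.getD (hs.comp (PT.fst.comp PT.fst)) PT.snd (PT.const false)))

lemma PT_stc {K S N m θ R : α → ℕ} {B h : α → List Bool} (hK : PT K) (hS : PT S) (hN : PT N)
    (hm : PT m) (hθ : PT θ) (hR : PT R) (hB : PT B) (hh : PT h) :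
    PT (fun x => stc (K x) (fun a j => (B x).getD (a * S x + j) false) (N x) (m x) (θ x) (R x)
      (h x)) := by
  unfold stc pick
  have ht : PT (fun x => (h x).take ((h x).length / m x * m x)) :=
    PT_take (PT.nmul (PTx_ndiv (PT.length hh) hm) hm) hh
  refine PT.getD (PT_str (PT.headD ?_ (PT.const 0))) (PTx_nmod (PT.length hh) hm) (PT.const false)
  exact PT.filter (p := fun y : α × ℕ => good (K y.1)
    (fun a j => (B y.1).getD (a * S y.1 + j) false) (N y.1) (m y.1) (θ y.1)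
    ((h y.1).take ((h y.1).length / m y.1 * m y.1)) (str y.2)) (PT.range hR)
    (PT_good (hK.comp PT.fst) (hS.comp PT.fst) (hN.comp PT.fst) (hm.comp PT.fst)
      (hθ.comp PT.fst) (hB.comp PT.fst) (ht.comp PT.fst) (PT_str PT.snd))

lemma PT_bl (D κ : ℕ) {n : α → ℕ} (hn : PT n) : PT (fun x => bl D κ (n x)) := by
  unfold bl
  exact PT.nmul (PT.nmul (PT.const 8) (PT_npow (PT_npow (PT.nsucc hn) _) _))
    (PT.nadd (PT.nmul (PT.const 2) (PT_npow hn _)) (PT.const 3))

lemma PT_th (D κ : ℕ) {n : α → ℕ} (hn : PT n) : PT (fun x => th D κ (n x)) := by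
  unfold th
  exact PT.nmul (PT.nadd (PT.nmul (PT.const 4) (PT_npow (PT_npow (PT.nsucc hn) _) _))
    (PT.nmul (PT.const 3) (PT_npow (PT.nsucc hn) _)))
    (PT.nadd (PT.nmul (PT.const 2) (PT_npow hn _)) (PT.const 3))

lemma PT_RR (D κ : ℕ) : PT (RR D κ) := by
  unfold RR
  exact PT_p2 PT.snd (PT.nsucc (PT_bl D κ (PT.length PT.fst)))

lemma PT_SS (D κ : ℕ) : PT (SS D κ) := by
  unfold SS
  exact PT.nmul PT_MM (PT.nsucc (PT_bl D κ (PT.length PT.fst)))

lemma OPT_tabC (D κ : ℕ) : OPT O (tabC O D κ) := by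
  unfold tabC
  have hM : PT (fun w : (List Bool × ℕ) × ℕ => MM w.1) := PT_MM.comp PT.fst
  have hS : PT (fun w : (List Bool × ℕ) × ℕ => SS D κ w.1) := (PT_SS D κ).comp PT.fst
  have hu : PT (fun w : (List Bool × ℕ) × ℕ => unpair (str (w.2 / SS D κ w.1))) :=
    PT_unpair.comp (PT_str (PTx_ndiv PT.snd hS))
  exact OPT_mchB D hu.p1 PT.fst.p2 (PT.length PT.fst.p1)
    (PT_str (PT.nadd (PT.nsub hM (PT.const 1)) (PTx_nmod PT.snd hS))) hu.p2

lemma PT_stepCF (D κ : ℕ) : PT (stepCF D κ) := by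
  unfold stepCF
  have z1 : PT (fun z : ((List Bool × ℕ) × List Bool) × List Bool => z.1.1) := PT.fst.p1
  have n1 : PT (fun z : ((List Bool × ℕ) × List Bool) × List Bool => z.1.1.1.length) :=
    PT.length z1.p1
  exact PT_stc ((PT_KK D).comp z1) ((PT_SS D κ).comp z1) ((PT_NN D).comp z1) (PT_bl D κ n1)
    (PT_th D κ n1) ((PT_RR D κ).comp z1) PT.snd PT.fst.p2

lemma OPT_stepC (D κ : ℕ) : OPT O (stepC O D κ) := by
  unfold stepC
  have h1 : OPT O (fun y : ((List Bool × ℕ) × List Bool) × ℕ => tabC O D κ (y.1.1, y.2)) :=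
    (OPT_tabC D κ).comp_PT (PT.pair PT.fst.p1 PT.snd)
  have h2 := MP_92db0f_lc_gold.OPT.bits (p := fun y : ((List Bool × ℕ) × List Bool) × ℕ =>
    tabC O D κ (y.1.1, y.2)) h1 (n := fun w : (List Bool × ℕ) × List Bool => w.1.2) PT.fst.p2
  exact ((OPT.of_PT PT.id).pair h2).map (h := stepCF D κ) (PT_stepCF D κ)

lemma OPT_GC (D κ : ℕ) : OPT O (GC O D κ) := by
  have ht : PT (fun w : List Bool × ℕ => vlc w.2 w.1 - p2 w.2 w.1.length) :=
    PT.nsub (PT_vlc PT.snd PT.fst) (PT_p2 PT.snd (PT.length PT.fst))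
  have h1 := (MP_92db0f_lc_gold.OPT.gen (OPT_stepC (O := O) D κ)).comp_PT
    (h := fun w : List Bool × ℕ => (w, vlc w.2 w.1 - p2 w.2 w.1.length + 1))
    (PT.pair PT.id (PT.nsucc ht))
  have h2 := ((OPT.of_PT (O := O) ht).pair h1).map
    (h := fun p : ℕ × List Bool => p.2.getD p.1 false) (PT.getD PT.snd PT.fst (PT.const false))
  exact h2.congr fun w => gen_getD _ _ _

lemma OPT_VC (D κ : ℕ) : OPT O (VC O D κ) := by
  unfold VC EE
  have hn : PT (fun p : List Bool × List Bool => p.1.length) := PT.length PT.fst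
  have hl : PT (fun p : List Bool × List Bool => p.2.length) := PT.length PT.snd
  exact (OPT.of_PT (PT.nle (PT_p2 (PT.nsucc hl) (PT.nadd (PT_npow (PT.nadd hn (PT.const 2)) _)
    (PT.const 3))) hl)).band ((OPT_GC D κ).comp_PT (PT.pair PT.fst hl))

/-- ROW K1 (CompC.lean). -/
theorem LAV_mem (O : Set (List Bool)) (D κ : ℕ) : InNEXP O (LAV O D κ) :=
  ⟨3 ^ (EX D κ + 2) + 2 * EX D κ + 7, fun p => VC O D κ p = true,
    MP_92db0f_lc_gold.OPT.polyTime (OPT_VC D κ), fun _ => Iff.rfl⟩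

end Pool.Agent.FIM
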