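import Pool.Agent.FIM.Defs
import Pool.Agent.FSR.Conv

/-!
The class `InCounted` is closed under complements.
-/

set_option autoImplicit false

namespace Pool.Agent.FIM

open Lib.helper60 Function Turing Computability Pool.Agent.LCB
open MP_92db0f_lc hiding answers InNEXP mkC length_mkC PT_mkC answers_take length_answers
open MP_92db0f_lc_alg (answers PolyTime InNEXP join)
open MP_92db0f_lc_gold (OPT Meas pbMeas natPB gen length_gen length_answers answers_take)
open MP_92db0f_lc_thr (PT_of_TM2 PT_of_TM2' PT_encz PT_encPair')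
open FSP (polyTime_of_OPT meas_encz)

/-- ROW F (Compl.lean). -/
theorem counted_compl {O L : Set (List Bool)} {c : ℕ} (h : FSR.InCounted c O L) :
    FSR.InCounted c O Lᶜ := by
  obtain ⟨V, D, ν, a, P, k, hV, hD, hν, ha, hc, hx⟩ := h
  obtain ⟨d, hd, hDd⟩ := OPT_of_polyTime PT_encz hD
  have hd' : OPT O (fun z : (List Bool × List Bool) × List Bool => !d z) :=
    hd.map (PT.bnot PT.id)
  refine ⟨V, _, ν, a, P, k, hV, polyTime_of_OPT MP_92db0f_lc_gold.PT_dec3
    (fun z => MP_92db0f_lc_gold.dec3_enc3 z) meas_encz hd', hν, ha, hc, ?_⟩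
  intro x M hM
  rw [Set.mem_compl_iff, hx x M hM, hDd]
  simp

end Pool.Agent.FIM
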