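import Pool.Agent.LCB.RelHier

/-!
A language in exponential time relative to an oracle whose restriction to every large length is
split by all large sets of a class of exponential time with advice (definitions).
-/

set_option autoImplicit false
set_option linter.unusedSectionVars false

namespace Pool.Agent.FIM

open Lib.helper60 Function Turing Computability
open MP_92db0f_lc hiding answers InNEXP mkC length_mkC PT_mkC answers_take length_answers
open MP_92db0f_lc_alg (answers PolyTime InNEXP)
open MP_92db0f_lc_gold (OPT Meas VK dcert VK_spec OPT_VK gen length_gen)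
open Pool.Agent.LCB

/-- The total weight of the predictors `a < N` that say something about the position `h.length` and
that have been right so far: they say that the value is `σ` at the positions `j` with `T a j`. The
weight of a predictor is doubled with every right prediction (up to the cap `K + 1`). -/
def wgt (K : ℕ) (T : ℕ → ℕ → Bool) (N : ℕ) (h : List Bool) (σ : Bool) : ℕ :=
  ((List.range N).map fun a => bif T a h.length &&
    (List.range h.length).all (fun j => !T a j || (h.getD j false == σ)) then
      p2 K ((List.range h.length).filter fun j => T a j).length + 1 else 0).sum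

/-- the next value: the opposite of the value predicted by the heavier side -/
def stp (K : ℕ) (T : ℕ → ℕ → Bool) (N : ℕ) (h : List Bool) : Bool :=
  decide (wgt K T N h true < wgt K T N h false)

/-- the list of the first `t` values -/
def hist (K : ℕ) (T : ℕ → ℕ → Bool) (N : ℕ) : ℕ → List Bool :=
  gen (fun z : Unit × List Bool => stp K T N z.2) ()

/-- the value with the number `t` -/
def val (K : ℕ) (T : ℕ → ℕ → Bool) (N : ℕ) (t : ℕ) : Bool := stp K T N (hist K T N t)

/-! ### with caps -/

/-- the number of strings of the length of the input -/
def MM (w : List Bool × ℕ) : ℕ := p2 w.2 w.1.length + 1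

/-- the number of the predictors -/
def NN (D : ℕ) (w : List Bool × ℕ) : ℕ := p2 w.2 (w.1.length ^ (D + 1) + 1)

/-- the cap of the weights -/
def KK (D : ℕ) (w : List Bool × ℕ) : ℕ := p2 w.2 (w.1.length ^ (D + 1) + 3)

/-- the table of the values of all predictors, with the flat index `k = a * M + j` -/
noncomputable def tabB (O : Set (List Bool)) (D : ℕ) (w : (List Bool × ℕ) × ℕ) : Bool :=
  mchB O D (unpair (str (w.2 / MM w.1))).1 w.1.2 w.1.1.length
    (str (MM w.1 - 1 + w.2 % MM w.1)) (unpair (str (w.2 / MM w.1))).2

/-- the next value, from the list of the bits of the table -/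
def stepF (D : ℕ) (z : ((List Bool × ℕ) × List Bool) × List Bool) : Bool :=
  stp (KK D z.1.1) (fun a j => z.2.getD (a * MM z.1.1 + j) false) (NN D z.1.1) z.1.2

/-- the next value -/
noncomputable def stepB (O : Set (List Bool)) (D : ℕ) (w : (List Bool × ℕ) × List Bool) : Bool :=
  stepF D (w, (List.range w.1.2).map fun k => tabB O D (w.1, k))

/-- the diagonal function -/
noncomputable def GB (O : Set (List Bool)) (D : ℕ) (w : List Bool × ℕ) : Bool :=
  stepB O D (w, gen (stepB O D) w (vlc w.2 w.1 - p2 w.2 w.1.length))

/-- the verifier of the diagonal language -/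
noncomputable def VB (O : Set (List Bool)) (D : ℕ) (p : List Bool × List Bool) : Bool :=
  decide (p2 (p.2.length + 1) (EE (D + 1) p.1.length) ≤ p.2.length) &&
    GB O D (p.1, p.2.length)

/-- the diagonal language -/
def LIM (O : Set (List Bool)) (D : ℕ) : Set (List Bool) :=
  {x | ∃ y : List Bool, y.length ≤ 2 ^ (x.length ^ (3 ^ (D + 1 + 2) + 2 * (D + 1) + 7) +
    (3 ^ (D + 1 + 2) + 2 * (D + 1) + 7)) ∧ VB O D (x, y) = true}

/-! ### without caps -/

/-- the value of the predictor `a` (a machine and its advice) at the string of length `n` with the
number `j` -/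
noncomputable def TI (O : Set (List Bool)) (D n : ℕ) (a j : ℕ) : Bool :=
  mchI O D (unpair (str a)).1 n (str (2 ^ n - 1 + j)) (unpair (str a)).2

/-- the value of the diagonal language at the string of length `n` with the number `j` -/
noncomputable def valI (O : Set (List Bool)) (D n : ℕ) (j : ℕ) : Bool :=
  val (2 ^ (n ^ (D + 1) + 3) - 1) (TI O D n) (2 ^ (n ^ (D + 1) + 1) - 1) j

end Pool.Agent.FIM
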