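import Pool.Agent.FIM.Defs

/-!
A language in exponential time relative to an oracle such that every language of a class of
exponential time with advice agrees with it on about one half of the inputs of every large length,
and has few strings of every large length if it is contained in it or disjoint from it
(definitions).
-/

set_option autoImplicit false
set_option linter.unusedSectionVars false

namespace Pool.Agent.FIM

open Lib.helper60 Function Turing Computability
open MP_92db0f_lc hiding answers InNEXP mkC length_mkC PT_mkC answers_take length_answers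
open MP_92db0f_lc_alg (answers PolyTime InNEXP)
open MP_92db0f_lc_gold (OPT Meas VK dcert VK_spec OPT_VK gen length_gen)
open Pool.Agent.LCB

/-- the weight of the pair `(a, σ)` after the values `h`: zero if the prediction, that the value is
`σ` at all positions `j` with `T a j`, was wrong once; otherwise it is doubled with every right
prediction (up to the cap `K + 1`) -/
def wone (K : ℕ) (T : ℕ → ℕ → Bool) (h : List Bool) (a : ℕ) (σ : Bool) : ℕ :=
  bif (List.range h.length).all (fun j => !T a j || (h.getD j false == σ)) then
    p2 K ((List.range h.length).filter fun j => T a j).length + 1 else 0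

/-- the total weight after the values `h` -/
def wsum (K : ℕ) (T : ℕ → ℕ → Bool) (N : ℕ) (h : List Bool) : ℕ :=
  ((List.range N).map fun a => wone K T h a true + wone K T h a false).sum

/-- the string `s` of length `m` is a good continuation of `h`: it agrees with every predictor on
fewer than `θ` positions, and the total weight does not increase -/
def good (K : ℕ) (T : ℕ → ℕ → Bool) (N m θ : ℕ) (h s : List Bool) : Bool :=
  (decide (s.length = m) && decide (wsum K T N (h ++ s) ≤ wsum K T N h)) &&
    (List.range N).all fun a => decide (((List.range m).filter fun i =>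
      T a (h.length + i) == s.getD i false).length < θ)

/-- the first good continuation, among the strings with numbers less than `R` -/
def pick (K : ℕ) (T : ℕ → ℕ → Bool) (N m θ R : ℕ) (h : List Bool) : List Bool :=
  str (((List.range R).filter fun k => good K T N m θ h (str k)).headD 0)

/-- the next value -/
def stc (K : ℕ) (T : ℕ → ℕ → Bool) (N m θ R : ℕ) (h : List Bool) : Bool :=
  (pick K T N m θ R (h.take (h.length / m * m))).getD (h.length % m) false

/-- the list of the first `t` values -/
def hic (K : ℕ) (T : ℕ → ℕ → Bool) (N m θ R : ℕ) : ℕ → List Bool :=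
  gen (fun z : Unit × List Bool => stc K T N m θ R z.2) ()

/-- the value with the number `t` -/
def vac (K : ℕ) (T : ℕ → ℕ → Bool) (N m θ R t : ℕ) : Bool :=
  stc K T N m θ R (hic K T N m θ R t)

/-! ### the parameters -/

/-- the length of the blocks -/
def bl (D κ n : ℕ) : ℕ := 8 * ((n + 1) ^ κ) ^ 2 * (2 * n ^ (D + 1) + 3)

/-- the bound for the number of agreements in a block -/
def th (D κ n : ℕ) : ℕ := (4 * ((n + 1) ^ κ) ^ 2 + 3 * (n + 1) ^ κ) * (2 * n ^ (D + 1) + 3)

/-- the exponent of the running time -/
def EX (D κ : ℕ) : ℕ := D + 2 * κ + 4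

/-- the number of the candidates -/
def RR (D κ : ℕ) (w : List Bool × ℕ) : ℕ := p2 w.2 (bl D κ w.1.length + 1)

/-- the length of the rows of the table -/
def SS (D κ : ℕ) (w : List Bool × ℕ) : ℕ := MM w * (bl D κ w.1.length + 1)

/-- the table of the values of all predictors, with the flat index `k = a * SS + j` -/
noncomputable def tabC (O : Set (List Bool)) (D κ : ℕ) (w : (List Bool × ℕ) × ℕ) : Bool :=
  mchB O D (unpair (str (w.2 / SS D κ w.1))).1 w.1.2 w.1.1.length
    (str (MM w.1 - 1 + w.2 % SS D κ w.1)) (unpair (str (w.2 / SS D κ w.1))).2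

/-- the next value, from the list of the bits of the table -/
def stepCF (D κ : ℕ) (z : ((List Bool × ℕ) × List Bool) × List Bool) : Bool :=
  stc (KK D z.1.1) (fun a j => z.2.getD (a * SS D κ z.1.1 + j) false) (NN D z.1.1)
    (bl D κ z.1.1.1.length) (th D κ z.1.1.1.length) (RR D κ z.1.1) z.1.2

/-- the next value -/
noncomputable def stepC (O : Set (List Bool)) (D κ : ℕ) (w : (List Bool × ℕ) × List Bool) : Bool :=
  stepCF D κ (w, (List.range w.1.2).map fun k => tabC O D κ (w.1, k))

/-- the diagonal function -/
noncomputable def GC (O : Set (List Bool)) (D κ : ℕ) (w : List Bool × ℕ) : Bool :=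
  stepC O D κ (w, gen (stepC O D κ) w (vlc w.2 w.1 - p2 w.2 w.1.length))

/-- the verifier of the diagonal language -/
noncomputable def VC (O : Set (List Bool)) (D κ : ℕ) (p : List Bool × List Bool) : Bool :=
  decide (p2 (p.2.length + 1) (EE (EX D κ) p.1.length) ≤ p.2.length) &&
    GC O D κ (p.1, p.2.length)

/-- the diagonal language -/
def LAV (O : Set (List Bool)) (D κ : ℕ) : Set (List Bool) :=
  {x | ∃ y : List Bool, y.length ≤ 2 ^ (x.length ^ (3 ^ (EX D κ + 2) + 2 * EX D κ + 7) +
    (3 ^ (EX D κ + 2) + 2 * EX D κ + 7)) ∧ VC O D κ (x, y) = true}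

/-- the value of the diagonal language at the string of length `n` with the number `j` -/
noncomputable def valA (O : Set (List Bool)) (D κ n j : ℕ) : Bool :=
  vac (2 ^ (n ^ (D + 1) + 3) - 1) (TI O D n) (2 ^ (n ^ (D + 1) + 1) - 1) (bl D κ n) (th D κ n)
    (2 ^ (bl D κ n + 1) - 1) j

end Pool.Agent.FIM
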