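import Pool.Agent.FIM.DefsC
import Pool.Agent.FIM.Chern

/-!
Every history has a good continuation.
-/

set_option autoImplicit false

namespace Pool.Agent.FIM

open Lib.helper60 Function Turing Computability
open MP_92db0f_lc hiding answers InNEXP mkC length_mkC PT_mkC answers_take length_answers KL
open MP_92db0f_lc_alg (answers PolyTime InNEXP)
open MP_92db0f_lc_gold (OPT Meas VK dcert VK_spec OPT_VK gen length_gen KL)
open Pool.Agent.LCB

private lemma K4_wone_snoc (K : ℕ) (T : ℕ → ℕ → Bool) (h : List Bool) (b : Bool) (a : ℕ) (σ : Bool) :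
    wone K T (h ++ [b]) a σ =
      bif ((List.range h.length).all (fun j => !T a j || (h.getD j false == σ)) &&
        (!T a h.length || (b == σ))) then
      p2 K (((List.range h.length).filter fun j => T a j).length +
        (bif T a h.length then 1 else 0)) + 1 else 0 := by
  unfold wone
  have h1 : (h ++ [b]).length = h.length + 1 := by simp
  rw [h1, List.range_succ, List.all_append, List.filter_append, List.length_append]
  have h2 : ((List.range h.length).all fun j => !T a j || ((h ++ [b]).getD j false == σ)) =
      (List.range h.length).all (fun j => !T a j || (h.getD j false == σ)) := by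
    rw [Bool.eq_iff_iff, List.all_eq_true, List.all_eq_true]
    refine forall₂_congr fun j hj => ?_
    rw [List.getD_append _ _ _ _ (List.mem_range.1 hj)]
  have h3 : (h ++ [b]).getD h.length false = b := by
    rw [List.getD_append_right _ _ _ _ le_rfl]
    simp
  rw [h2, List.all_cons, List.all_nil, Bool.and_true, h3]
  cases hT : T a h.length <;> simp [hT]

private lemma K4_p2 (K m : ℕ) : p2 K (m + 1) + 1 ≤ 2 * (p2 K m + 1) := by
  rw [p2_eq, p2_eq]
  have h : 2 ^ (m + 1) = 2 * 2 ^ m := by ring
  have h1 : 0 < 2 ^ m := by positivity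
  omega

private lemma K4_step (K : ℕ) (T : ℕ → ℕ → Bool) (h : List Bool) (a : ℕ) (σ : Bool) :
    wone K T (h ++ [true]) a σ + wone K T (h ++ [false]) a σ ≤ 2 * wone K T h a σ := by
  rw [K4_wone_snoc, K4_wone_snoc]
  unfold wone
  have h3 := K4_p2 K ((List.range h.length).filter fun j => T a j).length
  cases (List.range h.length).all (fun j => !T a j || (h.getD j false == σ)) <;>
    cases T a h.length <;> cases σ <;> simp <;> omega

private lemma K4_one (K : ℕ) (T : ℕ → ℕ → Bool) (a : ℕ) (σ : Bool) (m : ℕ) :
    ∀ h : List Bool, ∑ v : Fin m → Bool, wone K T (h ++ List.ofFn v) a σ ≤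
      2 ^ m * wone K T h a σ := by
  induction m with
  | zero => intro h; simp
  | succ m ih =>
    intro h
    rw [← (Fin.consEquiv fun _ : Fin (m + 1) => Bool).sum_comp, Fintype.sum_prod_type]
    have h1 : ∀ (b : Bool) (v : Fin m → Bool),
        wone K T (h ++ List.ofFn ((Fin.consEquiv fun _ : Fin (m + 1) => Bool) (b, v))) a σ =
          wone K T ((h ++ [b]) ++ List.ofFn v) a σ := by
      intro b v
      have h2 : List.ofFn ((Fin.consEquiv fun _ : Fin (m + 1) => Bool) (b, v)) =
          b :: List.ofFn v := by
        rw [List.ofFn_succ]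
        rfl
      rw [h2, List.append_assoc, List.singleton_append]
    simp only [h1]
    rw [Fintype.sum_bool]
    have h3 := ih (h ++ [true])
    have h4 := ih (h ++ [false])
    have h5 := Nat.mul_le_mul_left (2 ^ m) (K4_step K T h a σ)
    rw [Nat.mul_add] at h5
    calc _ ≤ 2 ^ m * wone K T (h ++ [true]) a σ + 2 ^ m * wone K T (h ++ [false]) a σ :=
          Nat.add_le_add h3 h4
      _ ≤ 2 ^ m * (2 * wone K T h a σ) := h5
      _ = 2 ^ (m + 1) * wone K T h a σ := by rw [pow_succ]; ring

private lemma K4_list_sum (f : ℕ → ℕ) (N : ℕ) :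
    ((List.range N).map f).sum = ∑ a ∈ Finset.range N, f a := by
  induction N with
  | zero => simp
  | succ n ih => rw [List.range_succ, List.map_append, List.sum_append, ih,
      Finset.sum_range_succ]; simp

private lemma K4_sum (K : ℕ) (T : ℕ → ℕ → Bool) (N m : ℕ) (h : List Bool) :
    ∑ v : Fin m → Bool, wsum K T N (h ++ List.ofFn v) ≤ 2 ^ m * wsum K T N h := by
  unfold wsum
  simp only [K4_list_sum]
  rw [Finset.sum_comm, Finset.mul_sum]
  refine Finset.sum_le_sum fun a _ => ?_
  rw [Finset.sum_add_distrib, Nat.mul_add]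
  exact Nat.add_le_add (K4_one K T a true m h) (K4_one K T a false m h)

private lemma K4_filter (P : ℕ → Bool) (m : ℕ) :
    ((List.range m).filter P).length = ∑ i ∈ Finset.range m, if P i = true then 1 else 0 := by
  induction m with
  | zero => simp
  | succ m ih =>
    rw [List.range_succ, List.filter_append, List.length_append, ih, Finset.sum_range_succ]
    cases hP : P m <;> simp [hP]

private lemma K4_agree {m : ℕ} (f : ℕ → Bool) (v : Fin m → Bool) :
    ((List.range m).filter fun i => f i == (List.ofFn v).getD i false).length =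
      (Finset.univ.filter fun i : Fin m => f i = v i).card := by
  rw [K4_filter, Finset.card_filter, ← Fin.sum_univ_eq_sum_range
    (fun i => if (f i == (List.ofFn v).getD i false) = true then 1 else 0)]
  refine Finset.sum_congr rfl fun i _ => ?_
  have h1 : (List.ofFn v).getD i false = v i := by
    rw [List.getD_eq_getElem _ _ (by simp)]
    simp
  rw [h1]
  simp

/-- ROW K4 (Exg.lean), from K3: average over all `s` of the total weight after `h ++ s` plus
`(2 * N + 1)` times the number of the predictors with too many agreements. -/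
theorem exists_good {p M N K : ℕ} (hp : 1 ≤ p) (hN : N * (2 * N + 1) < 2 ^ M)
    (T : ℕ → ℕ → Bool) (h : List Bool) (hw : wsum K T N h ≤ 2 * N) :
    ∃ s : List Bool, good K T N (8 * p ^ 2 * M) ((4 * p ^ 2 + 3 * p) * M) h s = true := by
  have hbad := fun a : ℕ => bad_count (p := p) (M := M) hp (fun i => T a (h.length + i))
  generalize 8 * p ^ 2 * M = m at hbad ⊢
  generalize (4 * p ^ 2 + 3 * p) * M = θ at hbad ⊢
  have hX : ∑ v : Fin m → Bool, (wsum K T N (h ++ List.ofFn v) + (2 * N + 1) *
      ((Finset.range N).filter fun a => θ ≤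
        (Finset.univ.filter fun i : Fin m => T a (h.length + i) = v i).card).card) <
      ∑ _v : Fin m → Bool, (wsum K T N h + 1) := by
    rw [Finset.sum_add_distrib, ← Finset.mul_sum]
    have h1 := K4_sum K T N m h
    have h2 : ∑ v : Fin m → Bool, ((Finset.range N).filter fun a => θ ≤
        (Finset.univ.filter fun i : Fin m => T a (h.length + i) = v i).card).card =
        ∑ a ∈ Finset.range N, (Finset.univ.filter fun v : Fin m → Bool => θ ≤
          (Finset.univ.filter fun i : Fin m => T a (h.length + i) = v i).card).card := by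
      simp only [Finset.card_filter]
      exact Finset.sum_comm
    have h3 : (∑ a ∈ Finset.range N, (Finset.univ.filter fun v : Fin m → Bool => θ ≤
          (Finset.univ.filter fun i : Fin m => T a (h.length + i) = v i).card).card) * 2 ^ M ≤
        N * 2 ^ m := by
      rw [Finset.sum_mul]
      calc _ ≤ ∑ _a ∈ Finset.range N, 2 ^ m := Finset.sum_le_sum fun a _ => hbad a
        _ = N * 2 ^ m := by rw [Finset.sum_const, Finset.card_range, smul_eq_mul]
    rw [h2]
    rw [Finset.sum_const, Finset.card_univ, Fintype.card_pi_const, Fintype.card_bool,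
      smul_eq_mul]
    generalize (∑ a ∈ Finset.range N, (Finset.univ.filter fun v : Fin m → Bool => θ ≤
          (Finset.univ.filter fun i : Fin m => T a (h.length + i) = v i).card).card) = B at h3 ⊢
    generalize (∑ v : Fin m → Bool, wsum K T N (h ++ List.ofFn v)) = A at h1 ⊢
    have hM : 0 < 2 ^ M := by positivity
    have hm : 0 < 2 ^ m := by positivity
    have h4 : (2 * N + 1) * B < 2 ^ m := by
      by_contra hc
      push Not at hc
      have h5 : 2 ^ m * 2 ^ M ≤ (2 * N + 1) * B * 2 ^ M := Nat.mul_le_mul_right _ hc
      have h6 : (2 * N + 1) * B * 2 ^ M ≤ (2 * N + 1) * (N * 2 ^ m) := by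
        rw [Nat.mul_assoc]
        exact Nat.mul_le_mul_left _ h3
      have h7 : (2 * N + 1) * (N * 2 ^ m) < 2 ^ M * 2 ^ m := by
        have := Nat.mul_lt_mul_of_pos_right hN hm
        calc _ = N * (2 * N + 1) * 2 ^ m := by ring
          _ < _ := this
      rw [Nat.mul_comm (2 ^ M)] at h7
      omega
    rw [Nat.mul_add, Nat.mul_one]
    omega
  obtain ⟨v, -, hv⟩ := Finset.exists_lt_of_sum_lt hX
  have hc : ((Finset.range N).filter fun a => θ ≤
      (Finset.univ.filter fun i : Fin m => T a (h.length + i) = v i).card).card = 0 := by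
    by_contra hc
    have h1 : 1 ≤ ((Finset.range N).filter fun a => θ ≤
      (Finset.univ.filter fun i : Fin m => T a (h.length + i) = v i).card).card :=
      Nat.one_le_iff_ne_zero.2 hc
    have h2 := Nat.mul_le_mul_left (2 * N + 1) h1
    omega
  rw [hc] at hv
  refine ⟨List.ofFn v, ?_⟩
  unfold good
  rw [Bool.and_eq_true, Bool.and_eq_true, decide_eq_true_eq, decide_eq_true_eq,
    List.all_eq_true]
  refine ⟨⟨by simp, by omega⟩, fun a ha => ?_⟩
  rw [decide_eq_true_eq, K4_agree (fun i => T a (h.length + i)) v]
  rw [Finset.card_eq_zero] at hc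
  by_contra hcon
  push Not at hcon
  have : a ∈ ((Finset.range N).filter fun a => θ ≤
      (Finset.univ.filter fun i : Fin m => T a (h.length + i) = v i).card) :=
    Finset.mem_filter.2 ⟨Finset.mem_range.2 (List.mem_range.1 ha), hcon⟩
  rw [hc] at this
  simp at this

end Pool.Agent.FIM
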