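import Pool.Agent.FIM.AvgC
import Pool.Agent.FIM.CompC
import Pool.Agent.FIM.Compl
import Pool.Agent.FSR.Counted

/-!
The main theorem: almost all inputs of every large length are hard.
-/

set_option autoImplicit false

namespace Pool.Agent.FIM

open Lib.helper60 Function Turing Computability
open MP_92db0f_lc hiding answers InNEXP mkC length_mkC PT_mkC answers_take length_answers KL
open MP_92db0f_lc_alg (answers PolyTime InNEXP)
open MP_92db0f_lc_gold (OPT Meas VK dcert VK_spec OPT_VK gen length_gen KL)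
open Pool.Agent.LCB

lemma mc_ncard (n : ℕ) : {x : List Bool | x.length = n}.ncard = 2 ^ n := by
  have h : {x : List Bool | x.length = n} =
      Set.range (fun v : List.Vector Bool n => v.toList) := by
    ext x
    constructor
    · intro hx
      exact ⟨⟨x, hx⟩, rfl⟩
    · rintro ⟨v, rfl⟩
      exact v.toList_length
  rw [h, ← Set.image_univ, Set.ncard_image_of_injective _ List.Vector.toList_injective,
    Set.ncard_univ, Nat.card_eq_fintype_card, card_vector, Fintype.card_bool]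

/-- ROW K8 (MainC.lean). -/
theorem mainC (O : Set (List Bool)) (c κ : ℕ) : ∃ L : Set (List Bool), InNEXP O L ∧
    ¬ FSR.InCounted c O L ∧ ((∀ e : ℕ, ¬ FSR.InCounted e O L) ∨ ∃ e : ℕ, ∀ A : Set (List Bool),
      FSR.InCounted c O A → ∀ᶠ n in Filter.atTop,
        2 * n ^ κ * {x : List Bool | x.length = n ∧ (x ∈ A ↔ x ∈ L)}.ncard ≤
          (n ^ κ + 1) * 2 ^ n ∧
        (A ⊆ L ∨ Disjoint A L → {x : List Bool | x ∈ A ∧ x.length = n}.ncard ≤ n ^ e)) := by
  by_cases hcase : ∃ e, InEAR O e (KL O)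
  · obtain ⟨e, he⟩ := hcase
    obtain ⟨d, hd⟩ := average O ((c + 2) * e + (c + 3)) (κ + 1)
    refine ⟨LAV O ((c + 2) * e + (c + 3)) (κ + 1), LAV_mem O _ _, ?_, Or.inr ⟨d, ?_⟩⟩
    · intro hL
      obtain ⟨n₀, hn₀⟩ := hd _ (FSR.ear_of_counted he hL)
      have h1 := (hn₀ (n₀ + 2) (by omega)).1
      have h3 : {x : List Bool | x.length = n₀ + 2 ∧ (x ∈ LAV O ((c + 2) * e + (c + 3)) (κ + 1) ↔
          x ∈ LAV O ((c + 2) * e + (c + 3)) (κ + 1))} = {x : List Bool | x.length = n₀ + 2} := by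
        ext x
        constructor
        · intro h
          exact h.1
        · intro h
          exact ⟨h, Iff.rfl⟩
      rw [h3, mc_ncard] at h1
      have h4 := Nat.le_of_mul_le_mul_right h1 (by positivity)
      have h5 : 2 ≤ (n₀ + 2) ^ (κ + 1) :=
        (show 2 ≤ n₀ + 2 by omega).trans (Nat.le_self_pow (by omega) _)
      omega
    · intro A hA
      obtain ⟨n₀, hn₀⟩ := hd A (FSR.ear_of_counted he hA)
      filter_upwards [Filter.eventually_ge_atTop (n₀ + 1)] with n hn
      obtain ⟨h1, h2⟩ := hn₀ n (by omega)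
      refine ⟨?_, h2⟩
      obtain ⟨g, hg⟩ : ∃ g, g = {x : List Bool | x.length = n ∧
        (x ∈ A ↔ x ∈ LAV O ((c + 2) * e + (c + 3)) (κ + 1))}.ncard := ⟨_, rfl⟩
      rw [← hg] at h1 ⊢
      have h3 : n * (2 * n ^ κ * g) ≤ n * ((n ^ κ + 1) * 2 ^ n) := by
        calc n * (2 * n ^ κ * g) = 2 * n ^ (κ + 1) * g := by ring
          _ ≤ (n ^ (κ + 1) + 1) * 2 ^ n := h1
          _ ≤ (n ^ (κ + 1) + n) * 2 ^ n := Nat.mul_le_mul_right _ (by omega)
          _ = n * ((n ^ κ + 1) * 2 ^ n) := by ring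
      exact Nat.le_of_mul_le_mul_left h3 (by omega)
  · push Not at hcase
    have hno : ∀ e : ℕ, ¬ FSR.InCounted e O (KL O) := by
      intro e hL
      obtain ⟨e', he'⟩ := FSR.ear_of_brute_counted hL
      exact hcase e' he'
    refine ⟨KL O, ?_, hno c, Or.inl hno⟩
    refine ⟨1, fun p => MP_92db0f_lc_gold.VK O p = true,
      MP_92db0f_lc_gold.OPT.polyTime (MP_92db0f_lc_gold.OPT_VK O), fun z => ?_⟩
    rw [pow_one]
    unfold KL
    rw [Set.mem_ofPred_eq, one_mul]

end Pool.Agent.FIM
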